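import Mathlib
import Pool.Agent.W516.K3.Defs
import Pool.Agent.W516.KU.Defs
import Pool.Agent.W516.KU.Defs2

/-!
# Statements for the project on de Rham-Betti classes of K3 surfaces with multiplication by a CM
field (project KCM)
-/

namespace Pool.Agent.W516.KCM

open Module TensorProduct Pool.Agent.W516.K3 Pool.Agent.W516.KU

/-- The evaluation of `ℂ ⊗ E` at an embedding of `E`. -/
noncomputable def ev (k E : Type) [Field k] [Field E] [Algebra k E] [Algebra k ℂ]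
    (τ : E →ₐ[k] ℂ) : ℂ ⊗[k] E →ₐ[ℂ] ℂ :=
  Algebra.TensorProduct.lift (AlgHom.id ℂ ℂ) τ (fun _ _ => Commute.all _ _)

/-- The action of `ℂ ⊗ E` on `ℂ ⊗ T`. -/
noncomputable def actC (k E T : Type) [Field k] [Field E] [Algebra k E] [Algebra k ℂ]
    [AddCommGroup T] [Module k T] [Module E T] [IsScalarTower k E T] :
    ℂ ⊗[k] E →ₗ[ℂ] Module.End ℂ (ℂ ⊗[k] T) :=
  LinearMap.liftBaseChange ℂ
    ((LinearMap.baseChangeHom k ℂ T T) ∘ₗ (Algebra.lsmul k k T : E →ₐ[k] Module.End k T).toLinearMap)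

/-- Idempotents of sets of embeddings. -/
def S_EMB : Prop :=
  ∀ (k E : Type) [Field k] [CharZero k] [Field E] [Algebra k E] [FiniteDimensional k E]
    [Algebra k ℂ],
    (∀ S : Set (E →ₐ[k] ℂ), ∃ ε : ℂ ⊗[k] E, (∀ τ ∈ S, ev k E τ ε = 1) ∧
      ∀ τ ∉ S, ev k E τ ε = 0) ∧
    (∀ y : ℂ ⊗[k] E, (∀ τ : E →ₐ[k] ℂ, ev k E τ y = 0) → y = 0)

/-- The action is multiplicative, and the traces. -/
def S_TRC : Prop :=
  ∀ (k E T : Type) [Field k] [CharZero k] [Field E] [Algebra k E] [FiniteDimensional k E]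
    [Algebra k ℂ] [AddCommGroup T] [Module k T] [FiniteDimensional k T] [Module E T]
    [IsScalarTower k E T],
    (∀ (r : ℂ) (a : E) (s : ℂ) (w : T), actC k E T (r ⊗ₜ[k] a) (s ⊗ₜ[k] w) =
      (r * s) ⊗ₜ[k] (a • w)) ∧
    (∀ x y : ℂ ⊗[k] E, actC k E T (x * y) = actC k E T x * actC k E T y) ∧
    (∀ (x : T →ₗ[E] T) (y : ℂ ⊗[k] E),
      LinearMap.trace ℂ (ℂ ⊗[k] T) ((x.restrictScalars k).baseChange ℂ ∘ₗ actC k E T y) =
        ∑ τ : E →ₐ[k] ℂ, ev k E τ y * τ (LinearMap.trace E T x))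

/-- The commutator with two Clifford multiplications, and lifts of skew endomorphisms. -/
def S_EXL : Prop :=
  ∀ (F T H : Type) [Field F] [CharZero F] [AddCommGroup T] [Module F T] [FiniteDimensional F T]
    [AddCommGroup H] [Module F H] (b : T →ₗ[F] T →ₗ[F] F) (γ : T →ₗ[F] Module.End F H),
    (∀ u v, b u v = b v u) → (∀ u, (∀ v, b u v = 0) → u = 0) →
    (∀ u v, γ u * γ v + γ v * γ u = (2 * b u v) • (1 : Module.End F H)) →
    (∀ u v, IsLift γ (sp γ u v) ((4 : F) • wdg b u v)) ∧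
    ∀ x : Module.End F T, (∀ u v, b (x u) v + b u (x v) = 0) →
      ∃ Z ∈ Submodule.span F {Z : Module.End F H | ∃ u v, Z = sp γ u v}, IsLift γ Z x

/-- The trace on a totally isotropic subspace (the range of an idempotent `P`). -/
def S_ISO : Prop :=
  ∀ (L T H : Type) [Field L] [CharZero L] [AddCommGroup T] [Module L T] [FiniteDimensional L T]
    [AddCommGroup H] [Module L H] [FiniteDimensional L H] [Nontrivial H]
    (b : T →ₗ[L] T →ₗ[L] L) (γ : T →ₗ[L] Module.End L H) (P : Module.End L T)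
    (S : Set (Module.End L H × Module.End L T)),
    (∀ u v, b u v = b v u) → (∀ u, (∀ v, b u v = 0) → u = 0) →
    (∀ u v, γ u * γ v + γ v * γ u = (2 * b u v) • (1 : Module.End L H)) →
    P * P = P → (∀ u v, b (P u) (P v) = 0) →
    (∀ p ∈ S, IsLift γ p.1 p.2) → (∀ p ∈ S, p.2 * P = P * p.2) →
    (∀ p ∈ S, LinearMap.trace L T (p.2 * P) = 0) →
    ∀ Z ∈ Algebra.adjoin L {Z | ∃ p ∈ S, p.1 = Z}, ∀ x : Module.End L T, IsLift γ Z x →
      x * P = P * x → LinearMap.trace L T (x * P) = 0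

/-- The algebraic hull of a set of scalars. -/
def S_HULL : Prop :=
  ∀ (k E T : Type) [Field k] [CharZero k] [Field E] [Algebra k E] [FiniteDimensional k E]
    [Algebra k ℂ] [AddCommGroup T] [Module k T] [FiniteDimensional k T] [Module E T]
    [IsScalarTower k E T] (κ : Type) [Fintype κ] [DecidableEq κ]
    (φ : MultilinearMap k (fun _ : κ => T) k) (Z : Set E) (z₀ : E),
    (∀ z ∈ Z, KillsM (Algebra.lsmul k k T z) φ) →
    (∀ s : (E →ₐ[k] ℂ) → ℤ, (∀ z ∈ Z, ∑ τ : E →ₐ[k] ℂ, (s τ : ℂ) * τ z = 0) →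
      ∑ τ : E →ₐ[k] ℂ, (s τ : ℂ) * τ z₀ = 0) →
    KillsM (Algebra.lsmul k k T z₀) φ

/-- Every integral relation between the conjugates of an odd element implies one with
coefficients `0`, `1`, `-1`. -/
def SmallRelations (k E : Type) [Field k] [Field E] [Algebra k E] [FiniteDimensional k E]
    [Algebra k ℂ] (ι : E →ₐ[k] E) : Prop :=
  ∀ s : (E →ₐ[k] ℂ) → ℤ, (∀ τ, s (τ.comp ι) = -s τ) → s ≠ 0 →
    ∃ s' : (E →ₐ[k] ℂ) → ℤ, (∀ τ, s' (τ.comp ι) = -s' τ) ∧ s' ≠ 0 ∧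
      (∀ τ, s' τ = 0 ∨ s' τ = 1 ∨ s' τ = -1) ∧
      ∀ z : E, ι z = -z → ∑ τ : E →ₐ[k] ℂ, (s τ : ℂ) * τ z = 0 →
        ∑ τ : E →ₐ[k] ℂ, (s' τ : ℂ) * τ z = 0

/-- Abelian extensions. -/
def S_SMA : Prop :=
  ∀ (k E : Type) [Field k] [CharZero k] [Field E] [Algebra k E] [FiniteDimensional k E]
    [Algebra k ℂ] [IsGalois k E] (ι : E →ₐ[k] E), (∀ g h : E ≃ₐ[k] E, g * h = h * g) →
    (∀ e, ι (ι e) = e) → (∃ e, ι e ≠ e) → SmallRelations k E ι

/-- Extensions of degree four. -/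
def S_SM4 : Prop :=
  ∀ (k E : Type) [Field k] [CharZero k] [Field E] [Algebra k E] [FiniteDimensional k E]
    [Algebra k ℂ] (ι : E →ₐ[k] E), finrank k E = 4 → (∀ e, ι (ι e) = e) → (∃ e, ι e ≠ e) →
    SmallRelations k E ι

/-- Lifts over an extension of the base field. -/
def S_LIFTC : Prop :=
  ∀ (k L E T H : Type) [Field k] [CharZero k] [Field L] [CharZero L] [Algebra k L] [Field E]
    [Algebra k E] [FiniteDimensional k E] [AddCommGroup T] [Module k T] [FiniteDimensional k T]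
    [Module E T] [IsScalarTower k E T] [AddCommGroup H] [Module k H] [FiniteDimensional k H]
    (γ : T →ₗ[k] Module.End k H) (γL : (L ⊗[k] T) →ₗ[L] Module.End L (L ⊗[k] H))
    (S : Set (Module.End k H)), (∀ a t, γL (a ⊗ₜ[k] t) = a • (γ t).baseChange L) →
    (∀ Z ∈ Submodule.span k {Z : Module.End k H | ∃ u v, Z = sp γ u v}, ∀ x : T →ₗ[E] T,
      IsLift γ Z (x.restrictScalars k) → Z ∈ Algebra.adjoin k S) →
    ∀ Z ∈ Submodule.span L {Z : Module.End L (L ⊗[k] H) | ∃ u v, Z = sp γL u v},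
    ∀ X : Module.End L (L ⊗[k] T), IsLift γL Z X →
      (∀ e : E, X * (Algebra.lsmul k k T e : Module.End k T).baseChange L =
        (Algebra.lsmul k k T e : Module.End k T).baseChange L * X) →
      Z ∈ Algebra.adjoin L {Z' | ∃ Z₀ ∈ S, Z' = Z₀.baseChange L}

/-- The first fundamental theorem for the unitary Lie algebra over `E`, for forms over `k`. -/
def S_EFFT : Prop :=
  ∀ (k E T : Type) [Field k] [CharZero k] [Field E] [Algebra k E] [FiniteDimensional k E]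
    [Algebra k ℂ] [AddCommGroup T] [Module k T] [FiniteDimensional k T] [Module E T]
    [IsScalarTower k E T] (ι : E →ₐ[k] E) (b : T →ₗ[k] T →ₗ[k] k),
    (∀ e, ι (ι e) = e) → (∃ e, ι e ≠ e) →
    (∀ u v, b u v = b v u) → (∀ u, (∀ v, b u v = 0) → u = 0) →
    (∀ (e : E) u v, b (e • u) v = b u (ι e • v)) →
    ∀ (κ : Type) [Fintype κ] [DecidableEq κ] (φ : MultilinearMap k (fun _ : κ => T) k),
    (∀ x : T →ₗ[E] T, (∀ u v, b (x u) v + b u (x v) = 0) → KillsM (x.restrictScalars k) φ) →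
    φ ∈ Submodule.span k
      {ψ | PairProdB (fun e : E => b ∘ₗ (Algebra.lsmul k k T e : Module.End k T)) ψ}

end Pool.Agent.W516.KCM
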