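import Mathlib
import Pool.Agent.W516.CMF.Main
import Pool.Agent.W516.KCM.Defs

/-!
# De Rham-Betti classes on K3 surfaces with multiplication by a CM field
-/

set_option linter.unusedSectionVars false

namespace Pool.Agent.W516.KCM

open Module TensorProduct Pool.Agent.H204R3.SP Pool.Agent.H204R3.GP Pool.Agent.W516.DR
  Pool.Agent.W516.KC Pool.Agent.W516.K3 Pool.Agent.W32.DK Pool.Agent.W516.KU Pool.Agent.W516.BQ
  Pool.Agent.W516.CMF

noncomputable section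

variable {k K : Type} [Field k] [Field K] [CharZero k] [CharZero K] [IsAlgClosed K] [Algebra k K]
  [Algebra k ℂ] [Algebra K ℂ] [IsScalarTower k K ℂ] [Algebra k ℝ] [IsScalarTower k ℝ ℂ]
  {F E : Type} [Field F] [Algebra k F] [FiniteDimensional k F] [Field E] [Algebra k E]
  [FiniteDimensional k E] [Algebra F E] [IsScalarTower k F E]
  {W : Type} [AddCommGroup W] [Module k W] [FiniteDimensional k W] [Nontrivial W]
  [Module F W] [IsScalarTower k F W] [Module E W] [IsScalarTower k E W] [IsScalarTower F E W]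
  {H : Type} [AddCommGroup H] [Module k H] [FiniteDimensional k H] [Nontrivial H]
  {ι ν : Type} [Fintype ι] [DecidableEq ι] [Fintype ν] [DecidableEq ν]
  (ξ : Basis ι ℂ (W →ₗ[k] ℂ)) (θ : Basis ν ℂ (H →ₗ[k] ℂ))
  (b : W →ₗ[k] W →ₗ[k] k) (γ : W →ₗ[k] Module.End k H)

/-- The multiplication by an element of `E`. -/
abbrev mE (k W : Type) {E : Type} [Field k] [Field E] [Algebra k E] [AddCommGroup W] [Module k W]
    [Module E W] [IsScalarTower k E W] (e : E) : Module.End k W := Algebra.lsmul k k W e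

/-- The Lie algebra generated by the lifts. -/
def genH (K : Type) {k H ν : Type} [Field k] [Field K] [CharZero k] [CharZero K] [IsAlgClosed K]
    [Algebra k K] [Algebra k ℂ] [Algebra K ℂ] [IsScalarTower k K ℂ] [AddCommGroup H]
    [Module k H] [FiniteDimensional k H] [Fintype ν] [DecidableEq ν]
    (θ : Basis ν ℂ (H →ₗ[k] ℂ)) : Set (Module.End k H) :=
  {Z | ∃ (D : Derivation K ℂ ℂ) (lam : ℂ →ₗ[k] k), Z = Y0 θ D lam}

variable (hcl : ∀ u v, γ u * γ v + γ v * γ u = (2 * b u v) • (1 : Module.End k H))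
  (hγ : IsDRBAction K (ξ : ι → (W →ₗ[k] ℂ)) (θ : ν → (H →ₗ[k] ℂ)) γ)
  (hss : DeRhamBettiSemisimple K (θ : ν → (H →ₗ[k] ℂ)))
  (hend : ∀ P : Module.End k H, IsDeRhamBettiEnd K (θ : ν → (H →ₗ[k] ℂ)) P →
    ∀ Z ∈ Submodule.span k {Z : Module.End k H | ∃ u v, Z = sp γ u v}, ∀ x : W →ₗ[E] W,
    IsLift γ Z (x.restrictScalars k) → P * Z = Z * P)

include hss hend in
/-- The lifts over an extension field are generated by the logarithmic derivatives. -/
theorem lift_mem (hLIFT : S_LIFTC) (L : Type) [Field L] [CharZero L] [Algebra k L]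
    (Z : Module.End L (L ⊗[k] H))
    (hZ : Z ∈ Submodule.span L {Z : Module.End L (L ⊗[k] H) | ∃ u v, Z = sp (gg L γ) u v})
    (X : Module.End L (L ⊗[k] W)) (hX : IsLift (gg L γ) Z X)
    (hXE : ∀ e : E, X * (mE k W e).baseChange L = (mE k W e).baseChange L * X) :
    Z ∈ Algebra.adjoin L {Z' : Module.End L (L ⊗[k] H) | ∃ Z₀ ∈ genH K θ,
      Z' = Z₀.baseChange L} :=
  hLIFT k L E W H γ (gg L γ) (genH K θ) (fun a t => gg_tmul γ a t)
    (fun Z hZ x hx => mem_of_comm (K := K) θ hss Z fun P hP => hend P hP Z hZ x hx) Z hZ X hX hXE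

theorem isLift_add {F' T' H' : Type} [Field F'] [AddCommGroup T'] [Module F' T'] [AddCommGroup H']
    [Module F' H'] {γ' : T' →ₗ[F'] Module.End F' H'} {Z Z' : Module.End F' H'}
    {x x' : Module.End F' T'} (h : IsLift γ' Z x) (h' : IsLift γ' Z' x') :
    IsLift γ' (Z + Z') (x + x') := by
  intro t
  rw [add_mul, mul_add, LinearMap.add_apply, map_add, ← h t, ← h' t]
  abel

/-! ### The eigenspace of the place -/

variable
  (hA1 : ∀ (r : ℝ) (a : F) (s : ℝ) (w : W), act k F W (r ⊗ₜ[k] a) (s ⊗ₜ[k] w) =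
    (r * s) ⊗ₜ[k] (a • w))
  (hA2 : ∀ x y : ℝ ⊗[k] F, act k F W (x * y) = act k F W x * act k F W y)
  (σ : F →ₐ[k] ℝ) (ε : ℝ ⊗[k] F)
  (hεσ : ∀ a : F, ((1 : ℝ) ⊗ₜ[k] a) * ε = ((σ a) ⊗ₜ[k] (1 : F)) * ε)
  {T : Type} [AddCommGroup T] [Module ℝ T] [FiniteDimensional ℝ T]
  (i : T →ₗ[ℝ] ℝ ⊗[k] W) (p : ℝ ⊗[k] W →ₗ[ℝ] T) (hpi : ∀ t, p (i t) = t)
  (hip : ∀ v, i (p v) = act k F W ε v)
  (hsym : ∀ u v, b u v = b v u) (hnd : ∀ u, (∀ v, b u v = 0) → u = 0)
  (hF : ∀ (a : F) u v, b (a • u) v = b u (a • v))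
  (δ : E) (hE : ∀ e : E, ∃ a c : F, e = algebraMap F E a + algebraMap F E c * δ)
  (d : F) (hδδ : δ * δ = -algebraMap F E d) (hδb : ∀ u v, b (δ • u) v = -b u (δ • v))
  (hσd : 0 < σ d)

theorem mE_eq (e : E) (a c : F) (h : e = algebraMap F E a + algebraMap F E c * δ) :
    (mE k W e : Module.End k W) = mF k W a + mF k W c * mE k W δ := by
  refine LinearMap.ext fun w => ?_
  rw [h]
  change (algebraMap F E a + algebraMap F E c * δ) • w = a • w + c • (δ • w)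
  rw [add_smul, mul_smul, algebraMap_smul, algebraMap_smul]

include hE in
theorem comm_of (X : Module.End ℝ (ℝ ⊗[k] W))
    (hXF : ∀ a : F, X * (mF k W a).baseChange ℝ = (mF k W a).baseChange ℝ * X)
    (hXδ : X * (mE k W δ).baseChange ℝ = (mE k W δ).baseChange ℝ * X) (e : E) :
    X * (mE k W e).baseChange ℝ = (mE k W e).baseChange ℝ * X := by
  obtain ⟨a, c, h⟩ := hE e
  rw [mE_eq δ e a c h, LinearMap.baseChange_add, bc_mul]
  refine LinearMap.ext fun v => ?_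
  have h1 := fun w => congrArg (fun P : Module.End ℝ (ℝ ⊗[k] W) => P w) (hXF a)
  have h2 := fun w => congrArg (fun P : Module.End ℝ (ℝ ⊗[k] W) => P w) (hXF c)
  have h3 := fun w => congrArg (fun P : Module.End ℝ (ℝ ⊗[k] W) => P w) hXδ
  simp only [Module.End.mul_apply] at h1 h2 h3
  simp only [Module.End.mul_apply, LinearMap.add_apply, map_add, h1, h2, h3]

theorem d0_F (a : F) (u : W) : mE k W δ (a • u) = a • mE k W δ u := by
  change δ • (a • u) = a • (δ • u)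
  rw [← algebraMap_smul E a u, ← algebraMap_smul E a (δ • u), smul_smul, smul_smul, mul_comm]

include hδδ in
theorem d0_d0 (u : W) : mE k W δ (mE k W δ u) = -(d • u) := by
  change δ • (δ • u) = -(d • u)
  rw [smul_smul, hδδ, neg_smul, algebraMap_smul]

theorem sp_wdg (hEXL : S_EXL) {L : Type} [Field L] [CharZero L] [Algebra k L]
    (hsym : ∀ u v, b u v = b v u) (hnd : ∀ u, (∀ v, b u v = 0) → u = 0)
    (hcl : ∀ u v, γ u * γ v + γ v * γ u = (2 * b u v) • (1 : Module.End k H))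
    (u v : L ⊗[k] W) : IsLift (gg L γ) (sp (gg L γ) u v) ((4 : L) • wdg (bx L b) u v) :=
  (hEXL L (L ⊗[k] W) (L ⊗[k] H) (bx L b) (gg L γ) (bx_symm b L hsym) (bx_nondeg b L hnd)
    (gg_cl b γ hcl)).1 u v

include hA1 hpi hip hF in
theorem wdg_i (u v : T) : (wdg (bx ℝ b) (i u) (i v) : Module.End ℝ (ℝ ⊗[k] W)) =
    i ∘ₗ wdg (bT (bx ℝ b) i) u v ∘ₗ p := by
  refine LinearMap.ext fun t => ?_
  rw [LinearMap.comp_apply, LinearMap.comp_apply, wdg, wdg]
  simp only [LinearMap.sub_apply, LinearMap.smulRight_apply, map_sub, map_smul]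
  rw [bx_i b hA1 ε i p hpi hip hF, bx_i b hA1 ε i p hpi hip hF]

theorem wdg_comm {V : Type} [AddCommGroup V] [Module ℝ V] {B : V →ₗ[ℝ] V →ₗ[ℝ] ℝ}
    {J : Module.End ℝ V} (hH : Herm B J) (u v : V) : xx B J u v * J = J * xx B J u v := by
  have h1 := herm_sk hH
  have h2 : ∀ u, J (J u) = -u := fun u => by
    rw [← Module.End.mul_apply, hH.sq]
    rfl
  refine LinearMap.ext fun t => ?_
  rw [Module.End.mul_apply, Module.End.mul_apply, xx, wdg, wdg]
  simp only [LinearMap.add_apply, LinearMap.sub_apply, LinearMap.smulRight_apply, map_add,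
    map_sub, map_smul, h2]
  have h3 : B v (J t) = -B (J v) t := by rw [h1, neg_neg]
  have h4 : B u (J t) = -B (J u) t := by rw [h1, neg_neg]
  have h5 : B (J v) (J t) = B v t := hH.isom _ _
  have h6 : B (J u) (J t) = B u t := hH.isom _ _
  rw [h3, h4, h5, h6]
  module

include hss hend hA1 hA2 hεσ hpi hip hsym hnd hF hE hδδ hδb hσd hcl in
/-- The elements `sJ u v` are in the algebra generated by the logarithmic derivatives. -/
theorem sJT_mem (hLIFT : S_LIFTC) (hEXL : S_EXL) (u v : T) :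
    sJ (gg ℝ γ ∘ₗ i) (JT σ d (mE k W δ) i p) u v ∈ Algebra.adjoin ℝ
      {Z' : Module.End ℝ (ℝ ⊗[k] H) | ∃ Z₀ ∈ genH K θ, Z' = Z₀.baseChange ℝ} := by
  set J := JT σ d (mE k W δ) i p with hJ
  have hH : Herm (bT (bx ℝ b) i) J := herm_JT b (mE k W δ) hnd hA1 hA2 σ ε hεσ i p hpi hip hsym
    hF (d0_F δ) d (d0_d0 δ d hδδ) hδb hσd
  have h1 : (4 : ℝ) • (wdg (bx ℝ b) (i u) (i v) : Module.End ℝ (ℝ ⊗[k] W)) +
      (4 : ℝ) • (wdg (bx ℝ b) (i (J u)) (i (J v)) : Module.End ℝ (ℝ ⊗[k] W)) =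
      i ∘ₗ ((4 : ℝ) • xx (bT (bx ℝ b) i) J u v) ∘ₗ p := by
    rw [wdg_i b hA1 ε i p hpi hip hF, wdg_i b hA1 ε i p hpi hip hF, xx]
    refine LinearMap.ext fun t => ?_
    simp only [LinearMap.add_apply, LinearMap.smul_apply, LinearMap.comp_apply, map_add, map_smul,
      smul_add]
  refine lift_mem (K := K) θ γ hss hend hLIFT ℝ _ ?_ (i ∘ₗ ((4 : ℝ) • xx (bT (bx ℝ b) i) J u v) ∘ₗ p)
    ?_ ?_
  · exact Submodule.add_mem _ (Submodule.subset_span ⟨i u, i v, rfl⟩)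
      (Submodule.subset_span ⟨i (J u), i (J v), rfl⟩)
  · rw [← h1]
    exact isLift_add (sp_wdg b γ hEXL hsym hnd hcl (i u) (i v))
      (sp_wdg b γ hEXL hsym hnd hcl (i (J u)) (i (J v)))
  · have hx : ((4 : ℝ) • xx (bT (bx ℝ b) i) J u v) * J = J * ((4 : ℝ) • xx (bT (bx ℝ b) i) J u v) := by
      rw [smul_mul_assoc, mul_smul_comm, wdg_comm hH]
    exact comm_of δ hE _ (ipc_F hA1 hA2 σ ε hεσ i p hpi hip _)
      (ipc_d (mE k W δ) hA1 σ ε i p hpi hip (d0_F δ) d hσd _ hx)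


/-! ### The Lie algebra on the eigenspace -/

variable (hsig : SignatureTwo (bx ℝ b)) (hposT : ∃ t, 0 < bT (bx ℝ b) i t t)
  (hdF : ∀ a : F, IsDeRhamBettiEnd K (ξ : ι → (W →ₗ[k] ℂ)) (mF k W a))
  (hδ : IsDeRhamBettiEnd K (ξ : ι → (W →ₗ[k] ℂ)) (mE k W δ))

/-- The pairs of the logarithmic derivatives on `H` and on the eigenspace. -/
def pairT (K : Type) {k W H ι ν T : Type} [Field k] [Field K] [CharZero k] [CharZero K]
    [IsAlgClosed K] [Algebra k K] [Algebra k ℂ] [Algebra K ℂ] [IsScalarTower k K ℂ] [Algebra k ℝ]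
    [AddCommGroup W] [Module k W] [FiniteDimensional k W]
    [AddCommGroup H] [Module k H] [FiniteDimensional k H] [Fintype ι] [DecidableEq ι]
    [Fintype ν] [DecidableEq ν] [AddCommGroup T] [Module ℝ T]
    (ξ : Basis ι ℂ (W →ₗ[k] ℂ)) (θ : Basis ν ℂ (H →ₗ[k] ℂ)) (i : T →ₗ[ℝ] ℝ ⊗[k] W)
    (p : ℝ ⊗[k] W →ₗ[ℝ] T) : Set (Module.End ℝ (ℝ ⊗[k] H) × Module.End ℝ T) :=
  {q | ∃ (D : Derivation K ℂ ℂ) (lam : ℂ →ₗ[k] k),
    q = ((Y0 θ D lam).baseChange ℝ, p ∘ₗ (Y0 ξ D lam).baseChange ℝ ∘ₗ i)}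

include hpi hip hnd hA1 hdF hcl hγ in
theorem lift_pairT (hb : IsDRBForm K (ξ : ι → (W →ₗ[k] ℂ)) (one2 b))
    (q : Module.End ℝ (ℝ ⊗[k] H) × Module.End ℝ T) (hq : q ∈ pairT K ξ θ i p) :
    IsLift (gg ℝ γ ∘ₗ i) q.1 q.2 := by
  obtain ⟨D, lam, rfl⟩ := hq
  intro t
  have h1 := gg_lift (L := ℝ) γ (fun t => comm_gamma ξ θ γ hγ D lam t) (i t)
  have h2 := stabT (K := K) ξ b hb hnd hA1 ε i p hpi hip hdF (Y0_mem (K := K) ξ D lam) t
  rw [h2] at h1
  exact h1

theorem pairT_fst : {Z | ∃ q ∈ pairT K ξ θ i p, q.1 = Z} =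
    {Z' : Module.End ℝ (ℝ ⊗[k] H) | ∃ Z₀ ∈ genH K θ, Z' = Z₀.baseChange ℝ} := by
  ext Z
  constructor
  · rintro ⟨_, ⟨D, lam, rfl⟩, rfl⟩
    exact ⟨_, ⟨D, lam, rfl⟩, rfl⟩
  · rintro ⟨_, ⟨D, lam, rfl⟩, rfl⟩
    exact ⟨_, ⟨D, lam, rfl⟩, rfl⟩

include hss hend hA1 hA2 hεσ hpi hip hsym hnd hF hE hδδ hδb hσd hcl hγ hsig hposT hdF hδ in
/-- The image of the real Lie algebra satisfies all conditions. -/
theorem goodK (hLIFT : S_LIFTC) (hEXL : S_EXL) (S1 : KU.S_IRR) (S2 : KU.S_DESC) (hA : S_ADJ)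
    (S3 : S_KILL) (hSPLIT : S_SPLIT) (hHYPP : S_HYPP) (h5 : 5 ≤ finrank ℝ T) :
    GoodJ (bT (bx ℝ b) i) (JT σ d (mE k W δ) i p) (gT (gR (K := K) ξ) i) := by
  have hi := inj_i i p hpi
  have hb := drb_b (K := K) ξ θ b γ hcl hγ
  have hH := herm_JT b (mE k W δ) hnd hA1 hA2 σ ε hεσ i p hpi hip hsym hF (d0_F δ) d
    (d0_d0 δ d hδδ) hδb hσd
  have : Nontrivial (ℝ ⊗[k] H) := by
    apply Module.nontrivial_of_finrank_pos (R := ℝ)
    rw [Module.finrank_baseChange]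
    exact Module.finrank_pos
  have hgen : ∀ q ∈ pairT K ξ θ i p, q.2 ∈ gT (gR (K := K) ξ) i := by
    rintro _ ⟨D, lam, rfl⟩
    exact ⟨_, Y0_mem (K := K) ξ D lam,
      stabT (K := K) ξ b hb hnd hA1 ε i p hpi hip hdF (Y0_mem (K := K) ξ D lam)⟩
  have hbrR : ∀ x ∈ gR (K := K) ξ, ∀ y ∈ gR (K := K) ξ, x * y - y * x ∈ gR (K := K) ξ := by
    intro x hx y hy κ _ _ φ hφ
    exact kills_bracket (hx κ φ hφ) (hy κ φ hφ)
  have hskew : ∀ x ∈ gT (gR (K := K) ξ) i, ∀ u v,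
      bT (bx ℝ b) i (x u) v + bT (bx ℝ b) i u (x v) = 0 := by
    rintro x ⟨X, hX, hXi⟩ u v
    rw [bT_apply, bT_apply, ← hXi, ← hXi]
    exact gR_skewB (K := K) ξ b hb hX _ _
  have h2 := irr_real S1 S2 hA (bT (bx ℝ b) i) (JT σ d (mE k W δ) i p) (gg ℝ γ ∘ₗ i)
    (pairT K ξ θ i p) hH h5 (fun u v => gg_cl b γ hcl (i u) (i v))
    (lift_pairT (K := K) ξ θ b γ hcl hγ hA1 ε i p hpi hip hnd hdF hb)
    (fun q hq => hskew _ (hgen q hq)) (by
      intro u v
      rw [pairT_fst (K := K) ξ θ i p, sd, one_smul]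
      exact sJT_mem (K := K) θ b γ hcl hss hend hA1 hA2 σ ε hεσ i p hpi hip hsym hnd hF δ hE d
        hδδ hδb hσd hLIFT hEXL u v)
  have hbr : ∀ x ∈ gT (gR (K := K) ξ) i, ∀ y ∈ gT (gR (K := K) ξ) i,
      x * y - y * x ∈ gT (gR (K := K) ξ) i := by
    rintro x ⟨X, hX, hXi⟩ y ⟨Y, hY, hYi⟩
    refine ⟨X * Y - Y * X, hbrR X hX Y hY, fun t => ?_⟩
    rw [LinearMap.sub_apply, Module.End.mul_apply, Module.End.mul_apply, hXi, hYi, hXi, hYi,
      LinearMap.sub_apply, map_sub, Module.End.mul_apply, Module.End.mul_apply]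
  have hirr : ∀ U : Submodule ℝ T, (∀ x ∈ gT (gR (K := K) ξ) i, ∀ u ∈ U, x u ∈ U) →
      U = ⊥ ∨ U = ⊤ := fun U hU => h2.1 U fun q hq u hu => hU _ (hgen q hq) u hu
  have hcomm : ∀ P : Module.End ℝ T, (∀ x ∈ gT (gR (K := K) ξ) i, x * P = P * x) →
      ∃ c e : ℝ, P = c • 1 + e • JT σ d (mE k W δ) i p :=
    fun P hP => h2.2 P fun q hq => hP _ (hgen q hq)
  refine ⟨hH, ?_, hskew, ?_, hbr, hirr, hcomm, ?_, ?_⟩
  · intro U hU
    have h3 := witt_of_signature (bx ℝ b) hsig (U.map i) (by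
      rintro _ ⟨u, hu, rfl⟩ _ ⟨v, hv, rfl⟩
      exact hU u hu v hv)
    rw [(Submodule.equivMapOfInjective i hi U).finrank_eq]
    exact h3
  · rintro x ⟨X, hX, hXi⟩
    refine LinearMap.ext fun t => hi ?_
    have h3 := congrArg (fun P : Module.End ℝ (ℝ ⊗[k] W) => P (i t))
      (gR_commP (K := K) ξ b hb hnd (mE k W δ) hδ hX)
    simp only [Module.End.mul_apply] at h3
    rw [Module.End.mul_apply, Module.End.mul_apply, ← hXi,
      i_JT (mE k W δ) hA1 σ ε i p hpi hip (d0_F δ), i_JT (mE k W δ) hA1 σ ε i p hpi hip (d0_F δ),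
      ← hXi, map_smul, h3]
  · intro x hx htr
    have h5 := central_of_trace (gT (gR (K := K) ξ) i) (by
      intro U hU
      rcases hirr U hU with rfl | rfl
      · exact ⟨⊤, fun _ _ _ _ => trivial, isCompl_bot_top⟩
      · exact ⟨⊥, fun X _ u hu => by
          rw [Submodule.mem_bot] at hu
          rw [hu, map_zero]
          exact Submodule.zero_mem _, isCompl_top_bot⟩) hbr hx htr
    obtain ⟨c, e, he⟩ := hcomm x h5
    obtain ⟨v0, hv0⟩ := hposT
    have hJsk := herm_sk hH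
    have hc : c = 0 := by
      have h6 := hskew x hx v0 v0
      rw [he] at h6
      simp only [LinearMap.add_apply, LinearMap.smul_apply, Module.End.one_apply, map_add,
        map_smul, smul_eq_mul, hJsk] at h6
      have h7 : c * bT (bx ℝ b) i v0 v0 = 0 := by linarith
      exact (mul_eq_zero.1 h7).resolve_right hv0.ne'
    have h6 := htr x hx
    rw [hc, zero_smul, zero_add] at he
    have h7 : x * x = (-(e * e)) • (1 : Module.End ℝ T) := by
      rw [he]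
      refine LinearMap.ext fun u => ?_
      rw [Module.End.mul_apply, LinearMap.smul_apply, LinearMap.smul_apply, map_smul, smul_smul,
        ← Module.End.mul_apply, hH.sq, LinearMap.neg_apply, LinearMap.smul_apply,
        Module.End.one_apply, smul_neg, neg_smul]
    rw [h7, map_smul, LinearMap.trace_one, smul_eq_mul] at h6
    have h8 : (finrank ℝ T : ℝ) ≠ 0 := by
      have : finrank ℝ T ≠ 0 := by omega
      exact_mod_cast this
    have h9 : e = 0 := by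
      have h10 := (mul_eq_zero.1 h6).resolve_right h8
      have h11 : e * e = 0 := by linarith
      exact mul_self_eq_zero.1 h11
    rw [he, h9, zero_smul]
  · intro y z hyz hc hy hz
    exact hyp_gT (gR (K := K) ξ) i p hpi (fun y z hyz hc hy hz κ _ _ φ hφ =>
      S3 _ κ _ y z hc hy hz (hyz κ φ hφ)) hSPLIT hHYPP y z hyz hc hy hz

include hss hend hA1 hA2 hεσ hpi hip hsym hnd hF hE hδδ hδb hσd hcl hγ hsig hposT hdF hδ in
/-- The extension by zero of an element of the special unitary Lie algebra of the eigenspace. -/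
theorem ext_memK (hLIFT : S_LIFTC) (hEXL : S_EXL) (S1 : KU.S_IRR) (S2 : KU.S_DESC) (hA : S_ADJ)
    (S3 : S_KILL) (hPF : KU.S_PF) (hCAS : KU.S_CAS)
    (hSPLIT : S_SPLIT) (hNORM : KU.S_NORM) (hDU : S_DU) (hUA : S_UA) (hUE : S_UE) (hUB : S_UB)
    (hHYPP : S_HYPP) (hRES : S_RES) (hDEFN : S_DEFN) (hIDL : S_IDL) (hCLB : S_CLB)
    {m : ℕ} (hm : 2 ≤ m) (hn : finrank ℝ T = 4 * m) (x₁ : Module.End ℝ T)
    (hx : ∀ u v, bT (bx ℝ b) i (x₁ u) v + bT (bx ℝ b) i u (x₁ v) = 0)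
    (hxJ : x₁ * JT σ d (mE k W δ) i p = JT σ d (mE k W δ) i p * x₁)
    (htr : LinearMap.trace ℝ T (x₁ * JT σ d (mE k W δ) i p) = 0) :
    (i ∘ₗ x₁ ∘ₗ p : Module.End ℝ (ℝ ⊗[k] W)) ∈ gR (K := K) ξ := by
  have hb := drb_b (K := K) ξ θ b γ hcl hγ
  have hg := goodK (K := K) ξ θ b γ hcl hγ hss hend hA1 hA2 σ ε hεσ i p hpi hip hsym hnd hF δ hE d
    hδδ hδb hσd hsig hposT hdF hδ hLIFT hEXL S1 S2 hA S3 hSPLIT hHYPP (by omega)
  have hbrR : ∀ x ∈ gR (K := K) ξ, ∀ y ∈ gR (K := K) ξ, x * y - y * x ∈ gR (K := K) ξ := by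
    intro x hx y hy κ _ _ φ hφ
    exact kills_bracket (hx κ φ hφ) (hy κ φ hφ)
  have hge : ∀ x ∈ gR (K := K) ξ, ∀ v, x (i (p v)) = i (p (x v)) := by
    intro x hx v
    rw [hip, hip]
    exact gR_act (K := K) ξ b hb hnd hA1 hdF hx ε v
  have : Nontrivial (ℝ ⊗[k] H) := by
    apply Module.nontrivial_of_finrank_pos (R := ℝ)
    rw [Module.finrank_baseChange]
    exact Module.finrank_pos
  have : Nontrivial T := Module.nontrivial_of_finrank_pos (R := ℝ) (by omega)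
  rcases real_altT (bx ℝ b) (JT σ d (mE k W δ) i p) (gR (K := K) ξ) i p hpi hge
    (fun x hx => gR_skewB (K := K) ξ b hb hx) hbrR (fun y z hyz hc hy hz κ _ _ φ hφ =>
      S3 _ κ _ y z hc hy hz (hyz κ φ hφ)) hPF hCAS hSPLIT hNORM hDU hUA hUE hUB hRES hDEFN hIDL
    hg (by omega) hposT (negT b (mE k W δ) hnd hA1 hA2 σ ε hεσ i p hpi hip hsym hF (d0_F δ) d
      (d0_d0 δ d hδδ) hδb hσd hsig hposT (by omega)) (fun u hu hu0 => def_ker b (mE k W δ) hnd
        hA1 hA2 σ ε hεσ i p hpi hip hsym hF (d0_F δ) d (d0_d0 δ d hδδ) hδb hσd hsig hposT u hu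
        hu0) with h | h
  · exact h x₁ hx hxJ htr
  · exfalso
    obtain ⟨V₀, hV, hV', hst⟩ := h
    have hev : Even (finrank ℝ V₀) := by
      have h1 := Submodule.finrank_add_eq_of_isCompl hV
      have h2 : finrank ℝ (V₀.map (JT σ d (mE k W δ) i p)) = finrank ℝ V₀ := by
        refine (Submodule.equivMapOfInjective (JT σ d (mE k W δ) i p) ?_ V₀).finrank_eq.symm
        rw [injective_iff_map_eq_zero]
        intro u hu
        have h3 := congrArg (fun P : Module.End ℝ T => P u) hg.herm.sq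
        simp only [Module.End.mul_apply, hu, map_zero, LinearMap.neg_apply,
          Module.End.one_apply] at h3
        exact neg_eq_zero.1 h3.symm
      rw [h2, hn] at h1
      exact ⟨m, by omega⟩
    obtain ⟨P, hP, hP'⟩ := hCLB T (ℝ ⊗[k] H) (bT (bx ℝ b) i) (JT σ d (mE k W δ) i p)
      (gg ℝ γ ∘ₗ i) hg.herm (fun u v => gg_cl b γ hcl (i u) (i v)) V₀ hV hV' hev
    refine hP' fun u v => ?_
    refine comm_adjoin ?_ (sJT_mem (K := K) θ b γ hcl hss hend hA1 hA2 σ ε hεσ i p hpi hip hsym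
      hnd hF δ hE d hδδ hδb hσd hLIFT hEXL u v)
    rintro _ ⟨_, ⟨D, lam, rfl⟩, rfl⟩
    have hyg : (p ∘ₗ (Y0 ξ D lam).baseChange ℝ ∘ₗ i : Module.End ℝ T) ∈
        gT (gR (K := K) ξ) i := ⟨_, Y0_mem (K := K) ξ D lam,
      stabT (K := K) ξ b hb hnd hA1 ε i p hpi hip hdF (Y0_mem (K := K) ξ D lam)⟩
    exact hP _ _ (lift_pairT (K := K) ξ θ b γ hcl hγ hA1 ε i p hpi hip hnd hdF hb _
      ⟨D, lam, rfl⟩) (hg.skew _ hyg) (hg.commJ _ hyg) (hst _ hyg)


include hA1 hpi hip hδδ hσd hsym hF hnd hA2 hεσ in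
/-- The elements of the special unitary Lie algebra kill the de Rham-Betti forms. -/
theorem kills_of_ext (hext : ∀ x₁ : Module.End ℝ T,
      (∀ u v, bT (bx ℝ b) i (x₁ u) v + bT (bx ℝ b) i u (x₁ v) = 0) →
      x₁ * JT σ d (mE k W δ) i p = JT σ d (mE k W δ) i p * x₁ →
      LinearMap.trace ℝ T (x₁ * JT σ d (mE k W δ) i p) = 0 →
      (i ∘ₗ x₁ ∘ₗ p : Module.End ℝ (ℝ ⊗[k] W)) ∈ gR (K := K) ξ) (lam : ℝ →ₗ[k] k)
    (hlam : (TensorProduct.lid k F) (LinearMap.rTensor F lam ε) = 1)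
    {κ : Type} [Fintype κ] [DecidableEq κ]
    (φ : MultilinearMap k (fun _ : κ => W) k) (hφ : IsDRBForm K (ξ : ι → (W →ₗ[k] ℂ)) φ)
    (x : Module.End k W) (hx : ∀ u v, b (x u) v + b u (x v) = 0)
    (hxF : ∀ a : F, x * mF k W a = mF k W a * x) (hxδ : x * mE k W δ = mE k W δ * x)
    (htr : ∀ a : F, LinearMap.trace k W (x * mE k W δ * mF k W a) = 0) : Kills x φ := by
  have hi := inj_i i p hpi
  have hXF : ∀ a : F, x.baseChange ℝ * (mF k W a).baseChange ℝ =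
      (mF k W a).baseChange ℝ * x.baseChange ℝ := by
    intro a
    have h2 := congrArg (fun P : Module.End k W => P.baseChange ℝ) (hxF a)
    simp only [bc_mul] at h2
    exact h2
  have hXδ : x.baseChange ℝ * (mE k W δ).baseChange ℝ = (mE k W δ).baseChange ℝ *
      x.baseChange ℝ := by
    have h2 := congrArg (fun P : Module.End k W => P.baseChange ℝ) hxδ
    simp only [bc_mul] at h2
    exact h2
  have hXe : ∀ v, x.baseChange ℝ (act k F W ε v) = act k F W ε (x.baseChange ℝ v) := fun v =>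
    congrArg (fun P : Module.End ℝ (ℝ ⊗[k] W) => P v) (act_comm hA1 _ hXF ε)
  set x₁ : Module.End ℝ T := p ∘ₗ x.baseChange ℝ ∘ₗ i with hx₁
  have hix : ∀ t, i (x₁ t) = x.baseChange ℝ (i t) := by
    intro t
    rw [hx₁, LinearMap.comp_apply, LinearMap.comp_apply, hip, ← hXe, e_i ε i p hpi hip]
  have h1 := hext x₁ (by
      intro u v
      rw [bT_apply, bT_apply, hix, hix]
      exact bb_skew b hx _ _) (by
      refine LinearMap.ext fun t => hi ?_
      have h3 := congrArg (fun P : Module.End ℝ (ℝ ⊗[k] W) => P (i t)) hXδ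
      simp only [Module.End.mul_apply] at h3
      rw [Module.End.mul_apply, Module.End.mul_apply, hix,
        i_JT (mE k W δ) hA1 σ ε i p hpi hip (d0_F δ),
        i_JT (mE k W δ) hA1 σ ε i p hpi hip (d0_F δ), hix, map_smul, h3]) (by
      have h3 : x₁ * JT σ d (mE k W δ) i p = (Real.sqrt (σ d))⁻¹ •
          (p ∘ₗ ((x * mE k W δ).baseChange ℝ ∘ₗ i) : Module.End ℝ T) := by
        refine LinearMap.ext fun t => hi ?_
        rw [Module.End.mul_apply, hix, i_JT (mE k W δ) hA1 σ ε i p hpi hip (d0_F δ),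
          LinearMap.smul_apply, map_smul, map_smul, LinearMap.comp_apply, LinearMap.comp_apply,
          bc_mul, Module.End.mul_apply, hip, ← hXe, ← d_act (mE k W δ) hA1 (d0_F δ)]
        rw [e_i ε i p hpi hip]
      have h4 : LinearMap.trace ℝ T
          (p ∘ₗ ((x * mE k W δ).baseChange ℝ ∘ₗ i) : Module.End ℝ T) = 0 := by
        rw [LinearMap.trace_comp_comm']
        have h5 : (((x * mE k W δ).baseChange ℝ ∘ₗ i) ∘ₗ p : Module.End ℝ (ℝ ⊗[k] W)) =
            (x * mE k W δ).baseChange ℝ * act k F W ε := by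
          refine LinearMap.ext fun v => ?_
          rw [LinearMap.comp_apply, LinearMap.comp_apply, hip, Module.End.mul_apply]
        rw [h5]
        exact trace_act hA1 (x * mE k W δ) htr ε
      rw [h3, map_smul, h4, smul_zero])
  have h2 := (kills_bcm_iff (Module.finBasis k W) φ _).1 (h1 κ φ hφ) lam
  have h3 : cmpE lam (i ∘ₗ x₁ ∘ₗ p : Module.End ℝ (ℝ ⊗[k] W)) = x := by
    refine LinearMap.ext fun w => ?_
    rw [cmpE_apply, LinearMap.comp_apply, LinearMap.comp_apply, hix, hip, hXe,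
      LinearMap.baseChange_tmul, cmp_act hA1, hlam, one_smul]
  rw [h3] at h2
  exact h2

end

end Pool.Agent.W516.KCM
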