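import Mathlib
import Pool.Agent.W516.KCM.Main
import Pool.Agent.W516.CMF.Final

/-!
# The centre of the de Rham-Betti Lie algebra
-/

set_option linter.unusedSectionVars false

namespace Pool.Agent.W516.KCM

open Module TensorProduct Pool.Agent.H204R3.SP Pool.Agent.H204R3.GP Pool.Agent.W516.DR
  Pool.Agent.W516.KC Pool.Agent.W516.K3 Pool.Agent.W32.DK Pool.Agent.W516.KU Pool.Agent.W516.BQ
  Pool.Agent.W516.CMF

noncomputable section

/-! ### Traces -/

section Trace

variable {k V : Type} [Field k] [AddCommGroup V] [Module k V] [FiniteDimensional k V]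

theorem trace_adj (b : V →ₗ[k] V →ₗ[k] k) (hnd : ∀ u, (∀ v, b u v = 0) → u = 0)
    (f g : Module.End k V) (h : ∀ u v, b (f u) v = b u (g v)) :
    LinearMap.trace k V f = LinearMap.trace k V g := by
  have hinj : Function.Injective b := by
    rw [injective_iff_map_eq_zero]
    intro u hu
    exact hnd u fun v => by rw [hu, LinearMap.zero_apply]
  let e : V ≃ₗ[k] Module.Dual k V :=
    LinearEquiv.ofInjectiveOfFinrankEq b hinj (Subspace.dual_finrank_eq).symm
  have he : ∀ u v, e u v = b u v := fun u v => rfl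
  have h1 : Module.Dual.transpose (R := k) g = e.conj f := by
    refine LinearMap.ext fun φ => LinearMap.ext fun v => ?_
    obtain ⟨u, rfl⟩ := e.surjective φ
    rw [LinearEquiv.conj_apply, LinearMap.comp_apply, LinearMap.comp_apply]
    simp only [LinearEquiv.coe_coe, LinearEquiv.symm_apply_apply]
    rw [he, h]
    rfl
  rw [← LinearMap.trace_transpose' g, h1, LinearMap.trace_conj']

end Trace

section TraceE

variable {k E W : Type} [Field k] [CharZero k] [Field E] [Algebra k E] [FiniteDimensional k E]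
  [AddCommGroup W] [Module k W] [FiniteDimensional k W] [Module E W] [IsScalarTower k E W]

theorem trace_resE (f : W →ₗ[E] W) :
    LinearMap.trace k W (f.restrictScalars k) = Algebra.trace k E (LinearMap.trace E W f) := by
  have : FiniteDimensional E W := FiniteDimensional.right k E W
  let b := Module.finBasis k E
  let c := Module.finBasis E W
  rw [LinearMap.trace_eq_matrix_trace k (b.smulTower c), LinearMap.trace_eq_matrix_trace E c,
    Algebra.trace_eq_matrix_trace b]
  simp only [Matrix.trace, Matrix.diag_apply, LinearMap.toMatrix_apply]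
  rw [Fintype.sum_prod_type]
  simp only [Basis.smulTower_apply, Basis.smulTower_repr, LinearMap.restrictScalars_apply, map_smul,
    Finsupp.smul_apply, smul_eq_mul, Algebra.leftMulMatrix_apply, LinearMap.toMatrix_apply,
    Algebra.coe_lmul_eq_mul, LinearMap.mul_apply']
  refine Finset.sum_congr rfl fun i _ => ?_
  rw [mul_comm, Finset.mul_sum, map_sum, Finsupp.finsetSum_apply]

/-- The trace of a skew endomorphism is odd. -/
theorem trace_odd (ι : E →ₐ[k] E) (hι : ∀ e, ι (ι e) = e) (b : W →ₗ[k] W →ₗ[k] k)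
    (hnd : ∀ u, (∀ v, b u v = 0) → u = 0) (hbE : ∀ (e : E) u v, b (e • u) v = b u (ι e • v))
    (x : W →ₗ[E] W) (hx : ∀ u v, b (x u) v + b u (x v) = 0) :
    ι (LinearMap.trace E W x) = -LinearMap.trace E W x := by
  set t := LinearMap.trace E W x with ht
  have h1 : ∀ e : E, Algebra.trace k E (e * t) = -Algebra.trace k E (ι e * t) := by
    intro e
    have h2 : LinearMap.trace k W ((e • x).restrictScalars k) =
        LinearMap.trace k W ((-(ι e • x)).restrictScalars k) := by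
      refine trace_adj b hnd _ _ fun u v => ?_
      change b (e • x u) v = b u (-(ι e • x v))
      rw [hbE, map_neg, ← map_smul]
      have h3 := hx u (ι e • v)
      linear_combination h3
    have h3 : LinearMap.trace E W (e • x) = e * t := by rw [map_smul, smul_eq_mul]
    have h4 : LinearMap.trace E W (-(ι e • x)) = -(ι e * t) := by
      rw [map_neg, map_smul, smul_eq_mul]
    rw [trace_resE, trace_resE, h3, h4, map_neg] at h2
    exact h2
  have hιe : ∀ e, Algebra.trace k E (ι e) = Algebra.trace k E e := by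
    intro e
    let φ : E ≃ₐ[k] E := AlgEquiv.ofAlgHom ι ι (AlgHom.ext hι) (AlgHom.ext hι)
    exact Algebra.trace_eq_of_algEquiv φ e
  have h4 : ∀ e : E, Algebra.trace k E ((ι t + t) * e) = 0 := by
    intro e
    have h5 := h1 (ι e)
    rw [hι] at h5
    have h6 := hιe (e * ι t)
    rw [map_mul, hι] at h6
    rw [add_mul, map_add, mul_comm (ι t), ← h6, h5, mul_comm t]
    ring
  have h7 : ι t + t = 0 := by
    by_contra h8
    have h9 := h4 (ι t + t)⁻¹
    rw [mul_inv_cancel₀ h8, ← map_one (algebraMap k E), Algebra.trace_algebraMap, nsmul_eq_mul,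
      mul_one] at h9
    have h10 : finrank k E ≠ 0 := (Module.finrank_pos (R := k) (M := E)).ne'
    exact h10 (by exact_mod_cast h9)
  exact eq_neg_of_add_eq_zero_left h7

end TraceE


/-! ### The complex eigenspaces -/

section Eig

variable {k E W : Type} [Field k] [CharZero k] [Field E] [Algebra k E] [FiniteDimensional k E]
  [Algebra k ℂ] [AddCommGroup W] [Module k W] [FiniteDimensional k W] [Module E W]
  [IsScalarTower k E W]

theorem ev_tmul (τ : E →ₐ[k] ℂ) (r : ℂ) (a : E) : ev k E τ (r ⊗ₜ[k] a) = r * τ a :=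
  Algebra.TensorProduct.lift_tmul _ _ _ _ _

variable (hC1 : ∀ (r : ℂ) (a : E) (s : ℂ) (w : W), actC k E W (r ⊗ₜ[k] a) (s ⊗ₜ[k] w) =
      (r * s) ⊗ₜ[k] (a • w))
  (hC2 : ∀ x y : ℂ ⊗[k] E, actC k E W (x * y) = actC k E W x * actC k E W y)

include hC1 in
theorem actC_tmul (r : ℂ) (a : E) : actC k E W (r ⊗ₜ[k] a) = r • (mE k W a).baseChange ℂ := by
  refine (Module.finBasis k W).baseChange ℂ |>.ext fun j => ?_
  rw [Basis.baseChange_apply, hC1, LinearMap.smul_apply, LinearMap.baseChange_tmul,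
    TensorProduct.smul_tmul', smul_eq_mul]
  rfl

include hC1 in
theorem actC_comm (X : Module.End ℂ (ℂ ⊗[k] W))
    (hX : ∀ a : E, X * (mE k W a).baseChange ℂ = (mE k W a).baseChange ℂ * X) (x : ℂ ⊗[k] E) :
    X * actC k E W x = actC k E W x * X := by
  induction x using TensorProduct.induction_on with
  | zero => rw [map_zero, mul_zero, zero_mul]
  | add x y hx hy => rw [map_add, mul_add, add_mul, hx, hy]
  | tmul r a => rw [actC_tmul hC1, mul_smul_comm, smul_mul_assoc, hX]

/-- The conjugation on `ℂ ⊗ E`. -/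
def cj (ι : E →ₐ[k] E) : ℂ ⊗[k] E →ₐ[ℂ] ℂ ⊗[k] E :=
  Algebra.TensorProduct.map (AlgHom.id ℂ ℂ) ι

theorem cj_tmul (ι : E →ₐ[k] E) (r : ℂ) (a : E) : cj ι (r ⊗ₜ[k] a) = r ⊗ₜ[k] ι a := rfl

theorem ev_cj (ι : E →ₐ[k] E) (τ : E →ₐ[k] ℂ) (y : ℂ ⊗[k] E) :
    ev k E τ (cj ι y) = ev k E (τ.comp ι) y := by
  induction y using TensorProduct.induction_on with
  | zero => rw [map_zero, map_zero, map_zero]
  | add x y hx hy => rw [map_add, map_add, map_add, hx, hy]
  | tmul r a => rw [cj_tmul, ev_tmul, ev_tmul]; rfl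

theorem bx_mE (L : Type) [Field L] [CharZero L] [Algebra k L] (b : W →ₗ[k] W →ₗ[k] k)
    (ι : E →ₐ[k] E) (hbE : ∀ (e : E) u v, b (e • u) v = b u (ι e • v)) (a : E)
    (u v : L ⊗[k] W) : bx L b ((mE k W a).baseChange L u) v =
      bx L b u ((mE k W (ι a)).baseChange L v) := by
  induction u using TensorProduct.induction_on with
  | zero => simp only [map_zero, LinearMap.zero_apply]
  | add x y hx hy => simp only [map_add, LinearMap.add_apply, hx, hy]
  | tmul r w =>
    induction v using TensorProduct.induction_on with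
    | zero => simp only [map_zero]
    | add x y hx hy => simp only [map_add, hx, hy]
    | tmul s w' =>
      rw [LinearMap.baseChange_tmul, LinearMap.baseChange_tmul,
        LinearMap.BilinForm.baseChange_tmul, LinearMap.BilinForm.baseChange_tmul]
      change b (a • w) w' • (r * s) = b w (ι a • w') • (r * s)
      rw [hbE]

include hC1 in
theorem bx_actC (b : W →ₗ[k] W →ₗ[k] k) (ι : E →ₐ[k] E)
    (hbE : ∀ (e : E) u v, b (e • u) v = b u (ι e • v)) (y : ℂ ⊗[k] E)
    (u v : ℂ ⊗[k] W) : bx ℂ b (actC k E W y u) v = bx ℂ b u (actC k E W (cj ι y) v) := by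
  induction y using TensorProduct.induction_on with
  | zero => simp only [map_zero, LinearMap.zero_apply]
  | add x y hx hy => simp only [map_add, LinearMap.add_apply, hx, hy]
  | tmul r a =>
    rw [cj_tmul, actC_tmul hC1, actC_tmul hC1, LinearMap.smul_apply, LinearMap.smul_apply,
      map_smul, LinearMap.smul_apply, map_smul, bx_mE ℂ b ι hbE]

end Eig

/-! ### The relations -/

variable {k K : Type} [Field k] [Field K] [CharZero k] [CharZero K] [IsAlgClosed K] [Algebra k K]
  [Algebra k ℂ] [Algebra K ℂ] [IsScalarTower k K ℂ] [Algebra k ℝ] [IsScalarTower k ℝ ℂ]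
  {E : Type} [Field E] [Algebra k E] [FiniteDimensional k E]
  {W : Type} [AddCommGroup W] [Module k W] [FiniteDimensional k W] [Nontrivial W]
  [Module E W] [IsScalarTower k E W]
  {H : Type} [AddCommGroup H] [Module k H] [FiniteDimensional k H] [Nontrivial H]
  {ι ν : Type} [Fintype ι] [DecidableEq ι] [Fintype ν] [DecidableEq ν]
  (ξ : Basis ι ℂ (W →ₗ[k] ℂ)) (θ : Basis ν ℂ (H →ₗ[k] ℂ))
  (b : W →ₗ[k] W →ₗ[k] k) (γ : W →ₗ[k] Module.End k H)
  (hcl : ∀ u v, γ u * γ v + γ v * γ u = (2 * b u v) • (1 : Module.End k H))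
  (hγ : IsDRBAction K (ξ : ι → (W →ₗ[k] ℂ)) (θ : ν → (H →ₗ[k] ℂ)) γ)
  (hss : DeRhamBettiSemisimple K (θ : ν → (H →ₗ[k] ℂ)))
  (hend : ∀ P : Module.End k H, IsDeRhamBettiEnd K (θ : ν → (H →ₗ[k] ℂ)) P →
    ∀ Z ∈ Submodule.span k {Z : Module.End k H | ∃ u v, Z = sp γ u v}, ∀ x : W →ₗ[E] W,
    IsLift γ Z (x.restrictScalars k) → P * Z = Z * P)
  (hsym : ∀ u v, b u v = b v u) (hnd : ∀ u, (∀ v, b u v = 0) → u = 0)
  (c : E →ₐ[k] E) (hc : ∀ e, c (c e) = e)
  (hbE : ∀ (e : E) u v, b (e • u) v = b u (c e • v))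
  (hdE : ∀ e : E, IsDeRhamBettiEnd K (ξ : ι → (W →ₗ[k] ℂ)) (mE k W e))

/-- The logarithmic derivative as an `E`-linear map. -/
def yE (ξ : Basis ι ℂ (W →ₗ[k] ℂ))
    (hdE : ∀ e : E, IsDeRhamBettiEnd K (ξ : ι → (W →ₗ[k] ℂ)) (mE k W e))
    (D : Derivation K ℂ ℂ) (lam : ℂ →ₗ[k] k) : W →ₗ[E] W where
  toFun := Y0 ξ D lam
  map_add' := map_add _
  map_smul' e u := congrArg (fun P : Module.End k W => P u)
    (Y0_comm (K := K) ξ (mE k W e) (hdE e) D lam)

theorem yE_res (D : Derivation K ℂ ℂ) (lam : ℂ →ₗ[k] k) :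
    (yE ξ hdE D lam).restrictScalars k = Y0 ξ D lam := LinearMap.ext fun _ => rfl

include hcl hγ in
theorem yE_skew (D : Derivation K ℂ ℂ) (lam : ℂ →ₗ[k] k) (u v : W) :
    b (yE ξ hdE D lam u) v + b u (yE ξ hdE D lam v) = 0 :=
  skew_Y0 ξ θ b γ hcl hγ D lam u v

/-- The scalar part of an endomorphism. -/
def zE (x : W →ₗ[E] W) : E := (finrank E W : E)⁻¹ * LinearMap.trace E W x

theorem sum_odd (s : (E →ₐ[k] ℂ) → ℤ) (hs : ∀ τ, s (τ.comp c) = -s τ) (hc : ∀ e, c (c e) = e)
    (z : E) (hz : c z = z) : ∑ τ : E →ₐ[k] ℂ, (s τ : ℂ) * τ z = 0 := by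
  let e : (E →ₐ[k] ℂ) ≃ (E →ₐ[k] ℂ) :=
    { toFun := fun τ => τ.comp c
      invFun := fun τ => τ.comp c
      left_inv := fun τ => AlgHom.ext fun e => congrArg τ (hc e)
      right_inv := fun τ => AlgHom.ext fun e => congrArg τ (hc e) }
  have h1 : ∑ τ : E →ₐ[k] ℂ, (s τ : ℂ) * τ z =
      ∑ τ : E →ₐ[k] ℂ, (s (τ.comp c) : ℂ) * (τ.comp c) z :=
    (Equiv.sum_comp e (fun τ : E →ₐ[k] ℂ => (s τ : ℂ) * τ z)).symm
  have h2 : ∑ τ : E →ₐ[k] ℂ, (s (τ.comp c) : ℂ) * (τ.comp c) z =
      -∑ τ : E →ₐ[k] ℂ, (s τ : ℂ) * τ z := by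
    rw [← Finset.sum_neg_distrib]
    refine Finset.sum_congr rfl fun τ _ => ?_
    rw [hs, AlgHom.comp_apply, hz]
    push_cast
    ring
  have h3 := h1.trans h2
  have h4 : (2 : ℂ) * ∑ τ : E →ₐ[k] ℂ, (s τ : ℂ) * τ z = 0 := by linear_combination h3
  exact (mul_eq_zero.1 h4).resolve_left two_ne_zero

theorem sum_comp_c (s : (E →ₐ[k] ℂ) → ℤ) (hc : ∀ e, c (c e) = e)
    (z : E) (hz : c z = -z) : ∑ τ : E →ₐ[k] ℂ, (s (τ.comp c) : ℂ) * τ z =
      -∑ τ : E →ₐ[k] ℂ, (s τ : ℂ) * τ z := by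
  let e : (E →ₐ[k] ℂ) ≃ (E →ₐ[k] ℂ) :=
    { toFun := fun τ => τ.comp c
      invFun := fun τ => τ.comp c
      left_inv := fun τ => AlgHom.ext fun e => congrArg τ (hc e)
      right_inv := fun τ => AlgHom.ext fun e => congrArg τ (hc e) }
  have h1 : ∑ τ : E →ₐ[k] ℂ, (s τ : ℂ) * τ z =
      ∑ τ : E →ₐ[k] ℂ, (s (τ.comp c) : ℂ) * (τ.comp c) z :=
    (Equiv.sum_comp e (fun τ : E →ₐ[k] ℂ => (s τ : ℂ) * τ z)).symm
  rw [h1, ← Finset.sum_neg_distrib]
  refine Finset.sum_congr rfl fun τ _ => ?_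
  rw [AlgHom.comp_apply, hz, map_neg]
  ring

/-- A relation between the conjugates of all elements is trivial. -/
theorem indep (s : (E →ₐ[k] ℂ) → ℤ) (h : ∀ z : E, ∑ τ : E →ₐ[k] ℂ, (s τ : ℂ) * τ z = 0) :
    s = 0 := by
  have h1 := linearIndependent_monoidHom E ℂ
  have h2 := h1.comp (fun τ : E →ₐ[k] ℂ => (τ : E →* ℂ)) (by
    intro τ τ' hττ
    refine AlgHom.ext fun e => ?_
    exact congrArg (fun f : E →* ℂ => f e) hττ)
  rw [Fintype.linearIndependent_iff] at h2
  have h3 := h2 (fun τ => (s τ : ℂ)) (by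
    funext z
    rw [Finset.sum_apply]
    exact h z)
  funext τ
  exact_mod_cast h3 τ


theorem zE_odd (hc : ∀ e, c (c e) = e) (hnd : ∀ u, (∀ v, b u v = 0) → u = 0)
    (hbE : ∀ (e : E) u v, b (e • u) v = b u (c e • v)) (x : W →ₗ[E] W)
    (hx : ∀ u v, b (x u) v + b u (x v) = 0) : c (zE x) = -zE x := by
  rw [zE, map_mul, trace_odd c hc b hnd hbE x hx, map_inv₀, map_natCast, mul_neg]

theorem finrank_ne (k E W : Type) [Field k] [CharZero k] [Field E] [Algebra k E]
    [AddCommGroup W] [Module k W] [FiniteDimensional k W] [Nontrivial W] [Module E W]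
    [IsScalarTower k E W] : (finrank E W : E) ≠ 0 := by
  have : FiniteDimensional E W := FiniteDimensional.right k E W
  have : CharZero E := charZero_of_injective_algebraMap (algebraMap k E).injective
  have h1 : finrank E W ≠ 0 := (Module.finrank_pos (R := E) (M := W)).ne'
  exact_mod_cast h1

theorem trace_zE (k : Type) {E W : Type} [Field k] [CharZero k] [Field E] [Algebra k E]
    [AddCommGroup W] [Module k W] [FiniteDimensional k W] [Nontrivial W] [Module E W]
    [IsScalarTower k E W] (x : W →ₗ[E] W) :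
    LinearMap.trace E W x = (finrank E W : E) * zE x := by
  rw [zE, ← mul_assoc, mul_inv_cancel₀ (finrank_ne k E W), one_mul]

/-- The part of trace zero. -/
theorem trace_sub (k : Type) {E W : Type} [Field k] [CharZero k] [Field E] [Algebra k E]
    [AddCommGroup W] [Module k W] [FiniteDimensional k W] [Nontrivial W] [Module E W]
    [IsScalarTower k E W] (x : W →ₗ[E] W) :
    LinearMap.trace E W (x - zE x • (LinearMap.id : W →ₗ[E] W)) = 0 := by
  have : FiniteDimensional E W := FiniteDimensional.right k E W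
  rw [map_sub, map_smul, LinearMap.trace_id, smul_eq_mul, trace_zE k x, mul_comm, sub_self]

include hcl hγ hss hend hsym hnd hc hbE hdE in
/-- The integral relations with small coefficients are trivial. -/
theorem small_zero (hISO : S_ISO) (hEMB : S_EMB) (hTRC : S_TRC) (hEXL : S_EXL)
    (s : (E →ₐ[k] ℂ) → ℤ) (hs : ∀ τ, s (τ.comp c) = -s τ)
    (hs1 : ∀ τ, s τ = 0 ∨ s τ = 1 ∨ s τ = -1)
    (hY : ∀ (D : Derivation K ℂ ℂ) (lam : ℂ →ₗ[k] k),
      ∑ τ : E →ₐ[k] ℂ, (s τ : ℂ) * τ (zE (yE ξ hdE D lam)) = 0) : s = 0 := by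
  obtain ⟨hC1, hC2, hTr⟩ := hTRC k E W
  obtain ⟨hE1, hE2⟩ := hEMB k E
  obtain ⟨ε, hε1, hε0⟩ := hE1 {τ | s τ = 1}
  -- the sum over the positive embeddings
  have hhalf : ∀ z : E, c z = -z →
      ∑ τ : E →ₐ[k] ℂ, (s τ : ℂ) * τ z = 2 * ∑ τ : E →ₐ[k] ℂ, ev k E τ ε * τ z := by
    intro z hz
    have h1 : ∀ τ : E →ₐ[k] ℂ, (s τ : ℂ) * τ z =
        ev k E τ ε * τ z - ev k E (τ.comp c) ε * τ z := by
      intro τ
      rcases hs1 τ with h | h | h
      · have h2 : s (τ.comp c) = 0 := by rw [hs, h, neg_zero]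
        rw [hε0 τ (fun h' => by rw [Set.mem_ofPred_eq, h] at h'; exact zero_ne_one h'),
          hε0 (τ.comp c) (fun h' => by rw [Set.mem_ofPred_eq, h2] at h'; exact zero_ne_one h'), h]
        push_cast
        ring
      · have h2 : s (τ.comp c) = -1 := by rw [hs, h]
        rw [hε1 τ h, hε0 (τ.comp c) (fun h' => by
          rw [Set.mem_ofPred_eq, h2] at h'
          exact absurd h' (by norm_num)), h]
        push_cast
        ring
      · have h2 : s (τ.comp c) = 1 := by rw [hs, h, neg_neg]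
        rw [hε1 (τ.comp c) h2, hε0 τ (fun h' => by
          rw [Set.mem_ofPred_eq, h] at h'
          exact absurd h' (by norm_num)), h]
        push_cast
        ring
    have h2 : ∑ τ : E →ₐ[k] ℂ, ev k E (τ.comp c) ε * τ z =
        -∑ τ : E →ₐ[k] ℂ, ev k E τ ε * τ z := by
      let e : (E →ₐ[k] ℂ) ≃ (E →ₐ[k] ℂ) :=
        { toFun := fun τ => τ.comp c
          invFun := fun τ => τ.comp c
          left_inv := fun τ => AlgHom.ext fun e => congrArg τ (hc e)
          right_inv := fun τ => AlgHom.ext fun e => congrArg τ (hc e) }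
      have h3 : ∑ τ : E →ₐ[k] ℂ, ev k E τ ε * τ z =
          ∑ τ : E →ₐ[k] ℂ, ev k E (τ.comp c) ε * (τ.comp c) z :=
        (Equiv.sum_comp e (fun τ : E →ₐ[k] ℂ => ev k E τ ε * τ z)).symm
      rw [h3, ← Finset.sum_neg_distrib]
      refine Finset.sum_congr rfl fun τ _ => ?_
      rw [AlgHom.comp_apply, hz, map_neg]
      ring
    rw [Finset.sum_congr rfl fun τ _ => h1 τ, Finset.sum_sub_distrib, h2]
    ring
  -- the idempotent
  set P := actC k E W ε with hP
  have hεε : ε * ε = ε := by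
    rw [← sub_eq_zero]
    refine hE2 _ fun τ => ?_
    rw [map_sub, map_mul]
    by_cases h : s τ = 1
    · rw [hε1 τ h]; ring
    · rw [hε0 τ h]; ring
  have hPP : P * P = P := by rw [hP, ← hC2, hεε]
  have hcε : cj c ε * ε = 0 := by
    refine hE2 _ fun τ => ?_
    rw [map_mul, ev_cj]
    by_cases h : s τ = 1
    · rw [hε0 (τ.comp c) (fun h' => by
        rw [Set.mem_ofPred_eq, hs, h] at h'
        exact absurd h' (by norm_num)), zero_mul]
    · rw [hε0 τ h, mul_zero]
  have hiso : ∀ u v, bx ℂ b (P u) (P v) = 0 := by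
    intro u v
    rw [hP, bx_actC hC1 b c hbE, ← Module.End.mul_apply, ← hC2, hcε, map_zero,
      LinearMap.zero_apply, map_zero]
  have hPcomm : ∀ x : W →ₗ[E] W, (x.restrictScalars k).baseChange ℂ * P =
      P * (x.restrictScalars k).baseChange ℂ := by
    intro x
    refine actC_comm hC1 _ (fun a => ?_) ε
    rw [← bc_mul, ← bc_mul]
    congr 1
    exact LinearMap.ext fun u => map_smul x a u
  have hPtr : ∀ x : W →ₗ[E] W, (∀ u v, b (x u) v + b u (x v) = 0) →
      LinearMap.trace ℂ (ℂ ⊗[k] W) ((x.restrictScalars k).baseChange ℂ * P) =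
        (finrank E W : ℂ) * ((1 / 2) * ∑ τ : E →ₐ[k] ℂ, (s τ : ℂ) * τ (zE x)) := by
    intro x hx
    have h1 := hTr x ε
    have h2 : ((x.restrictScalars k).baseChange ℂ * P) =
        ((x.restrictScalars k).baseChange ℂ ∘ₗ actC k E W ε) := rfl
    rw [h2, h1, hhalf _ (zE_odd b c hc hnd hbE x hx), ← mul_assoc (1 / 2 : ℂ)]
    rw [one_div, inv_mul_cancel₀ (two_ne_zero), one_mul, Finset.mul_sum]
    refine Finset.sum_congr rfl fun τ _ => ?_
    rw [trace_zE k x, map_mul, map_natCast]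
    ring
  -- the pairs
  have hodd : ∀ z : E, c z = -z → ∑ τ : E →ₐ[k] ℂ, (s τ : ℂ) * τ z = 0 := by
    intro z hz
    set x : W →ₗ[E] W := z • LinearMap.id with hx
    have hxs : ∀ u v, b (x u) v + b u (x v) = 0 := by
      intro u v
      change b (z • u) v + b u (z • v) = 0
      rw [hbE, hz, neg_smul, map_neg, neg_add_cancel]
    obtain ⟨Z, hZ, hZx⟩ := (hEXL k W H b γ hsym hnd hcl).2 (x.restrictScalars k) hxs
    have hZm : Z ∈ Algebra.adjoin k (genH K θ) :=
      mem_of_comm (K := K) θ hss Z fun P hP => hend P hP Z hZ x hZx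
    have hZC := Pool.Agent.W52.KU.T_ADJ k ℂ H _ _ hZm
    have : Nontrivial (ℂ ⊗[k] H) := by
      apply Module.nontrivial_of_finrank_pos (R := ℂ)
      rw [Module.finrank_baseChange]
      exact Module.finrank_pos
    let S : Set (Module.End ℂ (ℂ ⊗[k] H) × Module.End ℂ (ℂ ⊗[k] W)) :=
      {q | ∃ (D : Derivation K ℂ ℂ) (lam : ℂ →ₗ[k] k),
        q = ((Y0 θ D lam).baseChange ℂ, (Y0 ξ D lam).baseChange ℂ)}
    have hS : {Z' : Module.End ℂ (ℂ ⊗[k] H) | ∃ Z₀ ∈ genH K θ, Z' = Z₀.baseChange ℂ} =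
        {Z | ∃ q ∈ S, q.1 = Z} := by
      ext Z
      constructor
      · rintro ⟨_, ⟨D, lam, rfl⟩, rfl⟩
        exact ⟨_, ⟨D, lam, rfl⟩, rfl⟩
      · rintro ⟨_, ⟨D, lam, rfl⟩, rfl⟩
        exact ⟨_, ⟨D, lam, rfl⟩, rfl⟩
    have h1 := hISO ℂ (ℂ ⊗[k] W) (ℂ ⊗[k] H) (bx ℂ b) (gg ℂ γ) P S (bx_symm b ℂ hsym)
      (bx_nondeg b ℂ hnd) (gg_cl b γ hcl) hPP hiso (by
        rintro _ ⟨D, lam, rfl⟩
        exact gg_lift γ (fun t => comm_gamma ξ θ γ hγ D lam t)) (by
        rintro _ ⟨D, lam, rfl⟩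
        rw [← yE_res ξ hdE D lam]
        exact hPcomm _) (by
        rintro _ ⟨D, lam, rfl⟩
        rw [← yE_res ξ hdE D lam]
        have h2 := hPtr (yE ξ hdE D lam) (yE_skew ξ θ b γ hcl hγ hdE D lam)
        rw [hY, mul_zero, mul_zero] at h2
        exact h2) (Z.baseChange ℂ) (hS ▸ hZC) ((x.restrictScalars k).baseChange ℂ)
        (gg_lift γ hZx) (hPcomm x)
    rw [hPtr x hxs] at h1
    have hn : (finrank E W : ℂ) ≠ 0 := by
      have : FiniteDimensional E W := FiniteDimensional.right k E W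
      have h3 : finrank E W ≠ 0 := (Module.finrank_pos (R := E) (M := W)).ne'
      exact_mod_cast h3
    have h2 := (mul_eq_zero.1 h1).resolve_left hn
    have h3 := (mul_eq_zero.1 h2).resolve_left (by norm_num)
    have h4 : zE x = z := by
      have : FiniteDimensional E W := FiniteDimensional.right k E W
      rw [zE, hx, map_smul, LinearMap.trace_id, smul_eq_mul, mul_comm z, ← mul_assoc,
        inv_mul_cancel₀ (finrank_ne k E W), one_mul]
    rw [h4] at h3
    exact h3
  refine indep (k := k) s fun z => ?_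
  have h1 := hodd (z - c z) (by rw [map_sub, hc]; ring)
  have h2 := sum_odd c s hs hc (z + c z) (by rw [map_add, hc]; ring)
  have h3 : ∑ τ : E →ₐ[k] ℂ, (s τ : ℂ) * τ (z - c z) + ∑ τ : E →ₐ[k] ℂ, (s τ : ℂ) * τ (z + c z) =
      2 * ∑ τ : E →ₐ[k] ℂ, (s τ : ℂ) * τ z := by
    rw [← Finset.sum_add_distrib, Finset.mul_sum]
    refine Finset.sum_congr rfl fun τ _ => ?_
    rw [map_sub, map_add]
    ring
  rw [h1, h2, add_zero] at h3
  exact (mul_eq_zero.1 h3.symm).resolve_left two_ne_zero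


theorem kills_add' {κ : Type} [Fintype κ] [DecidableEq κ]
    {φ : MultilinearMap k (fun _ : κ => W) k} {x y : Module.End k W} (hx : Kills x φ)
    (hy : Kills y φ) : Kills (x + y) φ := by
  intro v
  have h3 := congrArg₂ (fun x y : k => x + y) (hx v) (hy v)
  simp only [add_zero] at h3
  rw [← h3, ← Finset.sum_add_distrib]
  refine Finset.sum_congr rfl fun j _ => ?_
  rw [LinearMap.add_apply, MultilinearMap.map_update_add]

theorem kills_neg' {κ : Type} [Fintype κ] [DecidableEq κ]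
    {φ : MultilinearMap k (fun _ : κ => W) k} {x : Module.End k W} (hx : Kills x φ) :
    Kills (-x) φ := by
  intro v
  have h3 := congrArg (fun x : k => -x) (hx v)
  simp only [neg_zero] at h3
  rw [← h3, ← Finset.sum_neg_distrib]
  refine Finset.sum_congr rfl fun j _ => ?_
  rw [LinearMap.neg_apply, MultilinearMap.map_update_neg]

include hcl hγ hss hend hsym hnd hc hbE hdE in
/-- All skew `E`-linear endomorphisms kill the de Rham-Betti forms. -/
theorem kills_all (hISO : S_ISO) (hEMB : S_EMB) (hTRC : S_TRC) (hEXL : S_EXL) (hHULL : S_HULL)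
    (hSR : SmallRelations k E c)
    (hsu : ∀ (κ : Type) [Fintype κ] [DecidableEq κ] (φ : MultilinearMap k (fun _ : κ => W) k),
      IsDRBForm K (ξ : ι → (W →ₗ[k] ℂ)) φ → ∀ x : W →ₗ[E] W,
      (∀ u v, b (x u) v + b u (x v) = 0) → LinearMap.trace E W x = 0 →
      Kills (x.restrictScalars k) φ)
    {κ : Type} [Fintype κ] [DecidableEq κ] (φ : MultilinearMap k (fun _ : κ => W) k)
    (hφ : IsDRBForm K (ξ : ι → (W →ₗ[k] ℂ)) φ) (x : W →ₗ[E] W)
    (hx : ∀ u v, b (x u) v + b u (x v) = 0) : Kills (x.restrictScalars k) φ := by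
  -- the scalar parts
  have hzs : ∀ z : E, c z = -z → ∀ u v, b (z • u) v + b u (z • v) = 0 := by
    intro z hz u v
    rw [hbE, hz, neg_smul, map_neg, neg_add_cancel]
  have hsub : ∀ y : W →ₗ[E] W, (∀ u v, b (y u) v + b u (y v) = 0) →
      Kills ((y - zE y • (LinearMap.id : W →ₗ[E] W)).restrictScalars k) φ := by
    intro y hy
    refine hsu κ φ hφ _ (fun u v => ?_) (trace_sub k y)
    have h1 := hy u v
    have h2 := hzs (zE y) (zE_odd b c hc hnd hbE y hy) u v
    simp only [LinearMap.sub_apply, LinearMap.smul_apply, LinearMap.id_apply, map_sub]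
    linear_combination h1 - h2
  have hYz : ∀ (D : Derivation K ℂ ℂ) (lam : ℂ →ₗ[k] k),
      Kills (mE k W (zE (yE ξ hdE D lam))) φ := by
    intro D lam
    have h1 := hsub (yE ξ hdE D lam) (yE_skew ξ θ b γ hcl hγ hdE D lam)
    have h2 : Kills (Y0 ξ D lam) φ := (drb0_iff ξ (Module.finBasis k W) φ).1 hφ D lam
    have h3 := kills_add' h2 (kills_neg' h1)
    have h4 : Y0 ξ D lam + -((yE ξ hdE D lam -
        zE (yE ξ hdE D lam) • (LinearMap.id : W →ₗ[E] W)).restrictScalars k) =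
        mE k W (zE (yE ξ hdE D lam)) := by
      refine LinearMap.ext fun u => ?_
      change Y0 ξ D lam u + -(Y0 ξ D lam u - zE (yE ξ hdE D lam) • u) =
        zE (yE ξ hdE D lam) • u
      abel
    rw [h4] at h3
    exact h3
  have hz : Kills (mE k W (zE x)) φ := by
    refine hHULL k E W κ φ {z | ∃ (D : Derivation K ℂ ℂ) (lam : ℂ →ₗ[k] k),
      z = zE (yE ξ hdE D lam)} (zE x) ?_ ?_
    · rintro _ ⟨D, lam, rfl⟩
      exact hYz D lam
    · intro s hs
      have hxo := zE_odd b c hc hnd hbE x hx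
      by_cases h0 : (fun τ : E →ₐ[k] ℂ => s τ - s (τ.comp c)) = 0
      · have h1 := sum_comp_c c s hc (zE x) hxo
        have h2 : ∀ τ : E →ₐ[k] ℂ, s (τ.comp c) = s τ := fun τ => by
          have h3 := congrFun h0 τ
          simp only [Pi.zero_apply] at h3
          linarith
        simp only [h2] at h1
        have h4 : (2 : ℂ) * ∑ τ : E →ₐ[k] ℂ, (s τ : ℂ) * τ (zE x) = 0 := by
          linear_combination h1
        exact (mul_eq_zero.1 h4).resolve_left two_ne_zero
      · exfalso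
        obtain ⟨s', hs'o, hs'0, hs'1, hs'r⟩ := hSR _ (fun τ => by
          have h1 : (τ.comp c).comp c = τ := AlgHom.ext fun e => congrArg τ (hc e)
          simp only [h1]
          ring) h0
        apply hs'0
        refine small_zero (K := K) ξ θ b γ hcl hγ hss hend hsym hnd c hc hbE hdE hISO hEMB hTRC
          hEXL s' hs'o hs'1 fun D lam => ?_
        have hyo := zE_odd b c hc hnd hbE (yE ξ hdE D lam) (yE_skew ξ θ b γ hcl hγ hdE D lam)
        refine hs'r _ hyo ?_
        have h1 := sum_comp_c c s hc _ hyo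
        have h2 := hs _ ⟨D, lam, rfl⟩
        rw [h2, neg_zero] at h1
        have h3 : ∑ τ : E →ₐ[k] ℂ, ((s τ - s (τ.comp c) : ℤ) : ℂ) * τ (zE (yE ξ hdE D lam)) =
            ∑ τ : E →ₐ[k] ℂ, (s τ : ℂ) * τ (zE (yE ξ hdE D lam)) -
            ∑ τ : E →ₐ[k] ℂ, (s (τ.comp c) : ℂ) * τ (zE (yE ξ hdE D lam)) := by
          rw [← Finset.sum_sub_distrib]
          refine Finset.sum_congr rfl fun τ _ => ?_
          push_cast
          ring
        rw [h3, h1, h2, sub_zero]
  have h5 := kills_add' (hsub x hx) hz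
  have h6 : (x - zE x • (LinearMap.id : W →ₗ[E] W)).restrictScalars k + mE k W (zE x) =
      x.restrictScalars k := by
    refine LinearMap.ext fun u => ?_
    change x u - zE x • u + zE x • u = x u
    abel
  rw [h6] at h5
  exact h5

end

end Pool.Agent.W516.KCM
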