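import Mathlib

/-!
# A statement for the project KCM: the place of a CM field where the form is indefinite
-/

namespace Pool.Agent.W516.KCM

open Module TensorProduct

/-- A form with a positive vector has a positive vector in the eigenspace of a real place of the
maximal totally real subfield. -/
def S_PLACE : Prop :=
  ∀ (k E T : Type) [Field k] [CharZero k] [Field E] [Algebra k E] [FiniteDimensional k E]
    [Algebra k ℝ] [Algebra k ℂ] [IsScalarTower k ℝ ℂ]
    [AddCommGroup T] [Module k T] [FiniteDimensional k T] [Module E T] [IsScalarTower k E T]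
    (c : E →ₐ[k] E) (b : T →ₗ[k] T →ₗ[k] k),
    (∀ e, c (c e) = e) → (∀ (j : E →ₐ[k] ℂ) (e : E), j (c e) = (starRingEnd ℂ) (j e)) →
    (∀ (e : E) u v, b (e • u) v = b u (c e • v)) →
    (∃ v, 0 < (LinearMap.BilinForm.baseChange ℝ b) v v) →
    ∃ (j : E →ₐ[k] ℂ) (v : ℝ ⊗[k] T),
      (∀ e, c e = e → (Algebra.lsmul k k T e : Module.End k T).baseChange ℝ v = (j e).re • v) ∧
      0 < (LinearMap.BilinForm.baseChange ℝ b) v v

end Pool.Agent.W516.KCM
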