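import Mathlib
import Pool.Agent.W516.KU.Final
import Pool.Agent.W516.KCM.Centre
import Pool.Agent.W516.KCM.Defs2
import Pool.Agent.W21.KCM.SMA
import Pool.Agent.W290.KCM.EMB
import Pool.Agent.W505.KCM.SM4
import Pool.Agent.W505.KCM.LIFTC
import Pool.Agent.W505.KCM.ISO
import Pool.Agent.W85.KCM.EXL
import Pool.Agent.W215.KCM.TRC
import Pool.Agent.W392.KCM.HULL

/-!
# De Rham-Betti classes on K3 surfaces with multiplication by a CM field: the main theorem
-/

set_option linter.unusedSectionVars false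

namespace Pool.Agent.W516.KCM

open Module TensorProduct Pool.Agent.H204R3.SP Pool.Agent.H204R3.GP Pool.Agent.W516.DR
  Pool.Agent.W516.KC Pool.Agent.W516.K3 Pool.Agent.W32.DK Pool.Agent.W516.KU Pool.Agent.W516.BQ
  Pool.Agent.W516.CMF

noncomputable section

section SU

variable {k K : Type} [Field k] [Field K] [CharZero k] [CharZero K] [IsAlgClosed K] [Algebra k K]
  [Algebra k ℂ] [Algebra K ℂ] [IsScalarTower k K ℂ] [Algebra k ℝ] [IsScalarTower k ℝ ℂ]
  {F E : Type} [Field F] [Algebra k F] [FiniteDimensional k F] [Field E] [Algebra k E]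
  [FiniteDimensional k E] [Algebra F E] [IsScalarTower k F E]
  {W : Type} [AddCommGroup W] [Module k W] [FiniteDimensional k W] [Nontrivial W]
  [Module F W] [IsScalarTower k F W] [Module E W] [IsScalarTower k E W] [IsScalarTower F E W]
  {H : Type} [AddCommGroup H] [Module k H] [FiniteDimensional k H] [Nontrivial H]
  {ι ν : Type} [Fintype ι] [DecidableEq ι] [Fintype ν] [DecidableEq ν]

/-- The elements of the special unitary Lie algebra kill the de Rham-Betti forms. -/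
theorem su_kills (ξ : Basis ι ℂ (W →ₗ[k] ℂ)) (θ : Basis ν ℂ (H →ₗ[k] ℂ))
    (b : W →ₗ[k] W →ₗ[k] k) (γ : W →ₗ[k] Module.End k H)
    (hcl : ∀ u v, γ u * γ v + γ v * γ u = (2 * b u v) • (1 : Module.End k H))
    (hγ : IsDRBAction K (ξ : ι → (W →ₗ[k] ℂ)) (θ : ν → (H →ₗ[k] ℂ)) γ)
    (hss : DeRhamBettiSemisimple K (θ : ν → (H →ₗ[k] ℂ)))
    (hend : ∀ P : Module.End k H, IsDeRhamBettiEnd K (θ : ν → (H →ₗ[k] ℂ)) P →
      ∀ Z ∈ Submodule.span k {Z : Module.End k H | ∃ u v, Z = sp γ u v}, ∀ x : W →ₗ[E] W,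
      IsLift γ Z (x.restrictScalars k) → P * Z = Z * P)
    (hsym : ∀ u v, b u v = b v u) (hnd : ∀ u, (∀ v, b u v = 0) → u = 0)
    (hF : ∀ (a : F) u v, b (a • u) v = b u (a • v))
    (δ : E) (hE : ∀ e : E, ∃ a c : F, e = algebraMap F E a + algebraMap F E c * δ)
    (d : F) (hδδ : δ * δ = -algebraMap F E d) (hδb : ∀ u v, b (δ • u) v = -b u (δ • v))
    (σ : F →ₐ[k] ℝ) (hσd : 0 < σ d)
    (hdE : ∀ e : E, IsDeRhamBettiEnd K (ξ : ι → (W →ₗ[k] ℂ)) (mE k W e))
    (hsig : SignatureTwo (bx ℝ b))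
    (hpos : ∃ v, (∀ a : F, (mF k W a).baseChange ℝ v = σ a • v) ∧ 0 < bx ℝ b v v)
    {m : ℕ} (hm : 2 ≤ m) (hn : finrank F W = 4 * m)
    (κ : Type) [Fintype κ] [DecidableEq κ]
    (φ : MultilinearMap k (fun _ : κ => W) k) (hφ : IsDRBForm K (ξ : ι → (W →ₗ[k] ℂ)) φ)
    (x : W →ₗ[E] W) (hx : ∀ u v, b (x u) v + b u (x v) = 0)
    (htr : LinearMap.trace E W x = 0) : Kills (x.restrictScalars k) φ := by
  obtain ⟨ε, hε0, hε, hεσ⟩ := Pool.Agent.W67.CMF.T_EPS k F σ
  obtain ⟨hA1, hA2, h3⟩ := Pool.Agent.W247.CMF.T_DIM k F W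
  obtain ⟨hdim, hlam⟩ := h3 σ ε hε0 hε hεσ
  obtain ⟨lam, hlam1⟩ := hlam 1
  obtain ⟨v, hvF, hv⟩ := hpos
  have hve : act k F W ε v = v := fix_eps hA1 σ ε hε0 hε hεσ v hvF
  obtain ⟨T, i1, i2, i3, i, p, hip, hpi, hdT, hvT⟩ : ∃ (T : Type) (_ : AddCommGroup T)
      (_ : Module ℝ T) (_ : FiniteDimensional ℝ T) (i : T →ₗ[ℝ] ℝ ⊗[k] W)
      (p : ℝ ⊗[k] W →ₗ[ℝ] T), (∀ v, i (p v) = act k F W ε v) ∧ (∀ t, p (i t) = t) ∧
      finrank ℝ T = 4 * m ∧ ∃ t, i t = v := by
    refine ⟨LinearMap.range (act k F W ε), inferInstance, inferInstance, inferInstance,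
      (LinearMap.range (act k F W ε)).subtype, (act k F W ε).rangeRestrict, fun v => rfl, ?_,
      by rw [hdim, hn], ⟨v, ⟨v, hve⟩⟩, rfl⟩
    rintro ⟨_, ⟨w, rfl⟩⟩
    apply Subtype.ext
    change act k F W ε (act k F W ε w) = act k F W ε w
    rw [← Module.End.mul_apply, ← hA2, hε]
  obtain ⟨t, ht⟩ := hvT
  have hposT : ∃ t, 0 < bT (bx ℝ b) i t t := ⟨t, by rw [bT_apply, ht]; exact hv⟩
  have hdF : ∀ a : F, IsDeRhamBettiEnd K (ξ : ι → (W →ₗ[k] ℂ)) (mF k W a) := by
    intro a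
    have h1 : (mF k W a : Module.End k W) = mE k W (algebraMap F E a) :=
      LinearMap.ext fun w => (algebraMap_smul E a w).symm
    rw [h1]
    exact hdE _
  refine kills_of_ext (K := K) (E := E) ξ b hA1 hA2 σ ε hεσ i p hpi hip hsym hnd hF δ d hδδ hσd
    ?_ lam hlam1 φ hφ (x.restrictScalars k) hx ?_ ?_ ?_
  · intro x₁ hx₁ hx₁J hx₁t
    exact ext_memK (K := K) ξ θ b γ hcl hγ hss hend hA1 hA2 σ ε hεσ i p hpi hip hsym hnd hF δ
      hE d hδδ hδb hσd hsig hposT hdF (hdE δ) Pool.Agent.W505.KCM.LIFTC.T_LIFTC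
      Pool.Agent.W85.KCM.T_EXL p_irr p_desc p_adj p_kill p_pf p_cas p_split p_norm p_du p_ua p_ue
      p_ub Pool.Agent.W681.CMF.T_HYPP Pool.Agent.W397.CMF.T_RES Pool.Agent.W351.CMF.T_DEFN
      Pool.Agent.W67.CMF.T_IDL p_clb hm hdT x₁ hx₁ hx₁J hx₁t
  · intro a
    refine LinearMap.ext fun u => ?_
    change x (a • u) = a • x u
    rw [← algebraMap_smul E a u, map_smul, algebraMap_smul]
  · exact LinearMap.ext fun u => map_smul x δ u
  · intro a
    have h1 : ((x.restrictScalars k : Module.End k W) * mE k W δ * mF k W a) =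
        ((δ * algebraMap F E a) • x).restrictScalars k := by
      refine LinearMap.ext fun u => ?_
      change x (δ • (a • u)) = (δ * algebraMap F E a) • x u
      rw [map_smul, ← algebraMap_smul E a u, map_smul, mul_smul]
    rw [h1, trace_resE, map_smul, htr, smul_zero, map_zero]

end SU

/-! ### The maximal totally real subfield -/

section Fix

variable {k E : Type} [Field k] [CharZero k] [Field E] [Algebra k E] [FiniteDimensional k E]

/-- The fixed field of an involution. -/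
def fixF (c : E →ₐ[k] E) : IntermediateField k E where
  carrier := {e | c e = e}
  mul_mem' {a b} ha hb := by
    change c (a * b) = a * b
    rw [map_mul]
    exact congrArg₂ _ ha hb
  add_mem' {a b} ha hb := by
    change c (a + b) = a + b
    rw [map_add]
    exact congrArg₂ _ ha hb
  algebraMap_mem' r := c.commutes r
  inv_mem' a ha := by
    change c a⁻¹ = a⁻¹
    rw [map_inv₀]
    exact congrArg _ ha

theorem fixF_coe (c : E →ₐ[k] E) (a : fixF c) : c (a : E) = a := a.2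

/-- An odd element. -/
theorem exists_odd (c : E →ₐ[k] E) (hc : ∀ e, c (c e) = e) (hc2 : ∃ e, c e ≠ e) :
    ∃ δ : E, δ ≠ 0 ∧ c δ = -δ ∧ (∀ e : E, ∃ a a' : fixF c, e = algebraMap (fixF c) E a +
      algebraMap (fixF c) E a' * δ) ∧ (∃ d : fixF c, δ * δ = -algebraMap (fixF c) E d) ∧
      finrank (fixF c) E = 2 := by
  obtain ⟨e, he⟩ := hc2
  have : CharZero E := charZero_of_injective_algebraMap (algebraMap k E).injective
  set δ := e - c e with hδ
  have hδ0 : δ ≠ 0 := fun h => he (sub_eq_zero.1 h).symm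
  have hcδ : c δ = -δ := by rw [hδ, map_sub, hc]; ring
  have hdec : ∀ e : E, ∃ a a' : fixF c, e = algebraMap (fixF c) E a +
      algebraMap (fixF c) E a' * δ := by
    intro e
    refine ⟨⟨(e + c e) / 2, ?_⟩, ⟨(e - c e) / (2 * δ), ?_⟩, ?_⟩
    · change c ((e + c e) / 2) = (e + c e) / 2
      rw [map_div₀, map_add, hc, map_ofNat, add_comm]
    · change c ((e - c e) / (2 * δ)) = (e - c e) / (2 * δ)
      rw [map_div₀, map_sub, hc, map_mul, map_ofNat, hcδ, mul_neg, div_neg, ← neg_div, neg_sub]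
    · change e = (e + c e) / 2 + (e - c e) / (2 * δ) * δ
      field_simp
      ring
  refine ⟨δ, hδ0, hcδ, hdec, ⟨⟨-(δ * δ), ?_⟩, ?_⟩, ?_⟩
  · change c (-(δ * δ)) = -(δ * δ)
    rw [map_neg, map_mul, hcδ, neg_mul_neg]
  · change δ * δ = -(-(δ * δ))
    rw [neg_neg]
  · let f : (fixF c × fixF c) →ₗ[fixF c] E :=
      (LinearMap.fst _ _ _).smulRight (1 : E) + (LinearMap.snd _ _ _).smulRight δ
    have hf : ∀ a a' : fixF c, f (a, a') = (a : E) + (a' : E) * δ := by
      intro a a'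
      change a • (1 : E) + a' • δ = (a : E) + (a' : E) * δ
      rw [IntermediateField.smul_def, IntermediateField.smul_def, smul_eq_mul, smul_eq_mul, mul_one]
    have hinj : Function.Injective f := by
      rw [injective_iff_map_eq_zero]
      rintro ⟨a, a'⟩ h
      rw [hf] at h
      have h1 := congrArg c h
      rw [map_add, map_mul, fixF_coe, fixF_coe, hcδ, map_zero] at h1
      have h2 : (2 : E) * (a : E) = 0 := by linear_combination h + h1
      have h3 : (a : E) = 0 := (mul_eq_zero.1 h2).resolve_left two_ne_zero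
      rw [h3, zero_add] at h
      have h4 : (a' : E) = 0 := (mul_eq_zero.1 h).resolve_right hδ0
      exact Prod.ext (Subtype.ext h3) (Subtype.ext h4)
    have hsurj : Function.Surjective f := by
      intro e
      obtain ⟨a, a', h⟩ := hdec e
      exact ⟨(a, a'), by rw [hf, h]; rfl⟩
    have h1 := (LinearEquiv.ofBijective f ⟨hinj, hsurj⟩).finrank_eq
    rw [← h1, Module.finrank_prod, Module.finrank_self]

end Fix


section Main

variable {k K : Type} [Field k] [Field K] [CharZero k] [CharZero K] [IsAlgClosed K] [Algebra k K]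
  [Algebra k ℂ] [Algebra K ℂ] [IsScalarTower k K ℂ] [Algebra k ℝ] [IsScalarTower k ℝ ℂ]
  {E : Type} [Field E] [Algebra k E] [FiniteDimensional k E]
  {W : Type} [AddCommGroup W] [Module k W] [FiniteDimensional k W] [Nontrivial W]
  [Module E W] [IsScalarTower k E W]
  {H : Type} [AddCommGroup H] [Module k H] [FiniteDimensional k H] [Nontrivial H]
  {ι ν : Type} [Fintype ι] [DecidableEq ι] [Fintype ν] [DecidableEq ν]
  (ξ : Basis ι ℂ (W →ₗ[k] ℂ)) (θ : Basis ν ℂ (H →ₗ[k] ℂ))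
  (b : W →ₗ[k] W →ₗ[k] k) (γ : W →ₗ[k] Module.End k H)
  (hcl : ∀ u v, γ u * γ v + γ v * γ u = (2 * b u v) • (1 : Module.End k H))
  (hγ : IsDRBAction K (ξ : ι → (W →ₗ[k] ℂ)) (θ : ν → (H →ₗ[k] ℂ)) γ)
  (hss : DeRhamBettiSemisimple K (θ : ν → (H →ₗ[k] ℂ)))
  (hend : ∀ P : Module.End k H, IsDeRhamBettiEnd K (θ : ν → (H →ₗ[k] ℂ)) P →
    ∀ Z ∈ Submodule.span k {Z : Module.End k H | ∃ u v, Z = sp γ u v}, ∀ x : W →ₗ[E] W,
    IsLift γ Z (x.restrictScalars k) → P * Z = Z * P)
  (hsym : ∀ u v, b u v = b v u) (hnd : ∀ u, (∀ v, b u v = 0) → u = 0)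
  (c : E →ₐ[k] E) (hc : ∀ e, c (c e) = e) (hc2 : ∃ e, c e ≠ e)
  (hCM : ∀ (j : E →ₐ[k] ℂ) (e : E), j (c e) = (starRingEnd ℂ) (j e))
  (hbE : ∀ (e : E) u v, b (e • u) v = b u (c e • v))
  (hdE : ∀ e : E, IsDeRhamBettiEnd K (ξ : ι → (W →ₗ[k] ℂ)) (mE k W e))
  (hsig : SignatureTwo (bx ℝ b)) {m : ℕ} (hm : 2 ≤ m) (hn : finrank E W = 2 * m)

include hcl hγ hss hend hsym hnd hc hc2 hCM hbE hdE hsig hm hn in
/-- The special unitary Lie algebra over the CM field. -/
theorem su_kills_E (hPL : S_PLACE) (κ : Type) [Fintype κ] [DecidableEq κ]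
    (φ : MultilinearMap k (fun _ : κ => W) k) (hφ : IsDRBForm K (ξ : ι → (W →ₗ[k] ℂ)) φ)
    (x : W →ₗ[E] W) (hx : ∀ u v, b (x u) v + b u (x v) = 0)
    (htr : LinearMap.trace E W x = 0) : Kills (x.restrictScalars k) φ := by
  obtain ⟨δ, hδ0, hcδ, hdec, ⟨d, hd⟩, hfin⟩ := exists_odd c hc hc2
  have hW : IsScalarTower k (fixF c) W := ⟨fun a f w => by
    change ((a • f : fixF c) : E) • w = a • ((f : E) • w)
    rw [IntermediateField.coe_smul, smul_assoc]⟩
  have hFE : FiniteDimensional E W := FiniteDimensional.right k E W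
  have hnF : finrank (fixF c) W = 4 * m := by
    rw [← Module.finrank_mul_finrank (fixF c) E W, hfin, hn]
    ring
  have hpos0 : ∃ v, 0 < bx ℝ b v v := by
    refine (indef_of_signature _ hsig ?_).1
    rw [Module.finrank_baseChange, ← Module.finrank_mul_finrank k (fixF c) W, hnF]
    have h1 : 0 < finrank k (fixF c) := Module.finrank_pos
    nlinarith
  obtain ⟨j, v, hjv, hv⟩ := hPL k E W c b hc hCM hbE hpos0
  -- the real place
  have hre : ∀ a : fixF c, ((j (a : E)).re : ℂ) = j (a : E) := by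
    intro a
    have h1 := hCM j (a : E)
    rw [fixF_coe] at h1
    exact Complex.conj_eq_iff_re.1 h1.symm
  let σ : fixF c →ₐ[k] ℝ :=
    { toFun := fun a => (j (a : E)).re
      map_one' := by
        change (j ((1 : fixF c) : E)).re = 1
        rw [IntermediateField.coe_one, map_one, Complex.one_re]
      map_zero' := by
        change (j ((0 : fixF c) : E)).re = 0
        rw [IntermediateField.coe_zero, map_zero, Complex.zero_re]
      map_mul' := fun a a' => by
        change (j ((a * a' : fixF c) : E)).re = (j (a : E)).re * (j (a' : E)).re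
        apply Complex.ofReal_injective
        rw [hre, Complex.ofReal_mul, hre, hre, IntermediateField.coe_mul, map_mul]
      map_add' := fun a a' => by
        change (j ((a + a' : fixF c) : E)).re = (j (a : E)).re + (j (a' : E)).re
        rw [IntermediateField.coe_add, map_add, Complex.add_re]
      commutes' := fun r => by
        change (j ((algebraMap k (fixF c) r : fixF c) : E)).re = algebraMap k ℝ r
        apply Complex.ofReal_injective
        rw [hre]
        change j (algebraMap k E r) = algebraMap ℝ ℂ (algebraMap k ℝ r)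
        rw [AlgHom.commutes, ← IsScalarTower.algebraMap_apply k ℝ ℂ] }
  have hσ : ∀ a : fixF c, σ a = (j (a : E)).re := fun a => rfl
  have hσd : 0 < σ d := by
    rw [hσ]
    have h1 : j δ ≠ 0 := (map_ne_zero_iff _ j.injective).2 hδ0
    have h2 := hCM j δ
    rw [hcδ, map_neg] at h2
    have h3 : (j δ).re = 0 := by
      have h4 := congrArg Complex.re h2
      rw [Complex.neg_re, Complex.conj_re] at h4
      linarith
    have h5 : (j δ).im ≠ 0 := fun h => h1 (Complex.ext h3 h)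
    have h6 : j (d : E) = -(j δ * j δ) := by
      have h7 : (d : E) = -(δ * δ) := by rw [hd, neg_neg]; rfl
      rw [h7, map_neg, map_mul]
    rw [h6, Complex.neg_re, Complex.mul_re, h3, mul_zero, zero_sub, neg_neg]
    exact mul_self_pos.2 h5
  refine su_kills (K := K) (F := fixF c) (E := E) ξ θ b γ hcl hγ hss hend hsym hnd ?_ δ hdec d hd
    ?_ σ hσd hdE hsig ⟨v, ?_, hv⟩ hm hnF κ φ hφ x hx htr
  · intro a u v
    change b ((a : E) • u) v = b u ((a : E) • v)
    rw [hbE, fixF_coe]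
  · intro u v
    rw [hbE, hcδ, neg_smul, map_neg]
  · intro a
    rw [hσ]
    exact hjv (a : E) (fixF_coe c a)

include hcl hγ hss hend hsym hnd hc hc2 hCM hbE hdE hsig hm hn in
/-- All skew `E`-linear endomorphisms kill the de Rham-Betti forms. -/
theorem kills_E (hPL : S_PLACE)
    (hE : (IsGalois k E ∧ ∀ g h : E ≃ₐ[k] E, g * h = h * g) ∨ finrank k E = 4)
    {κ : Type} [Fintype κ] [DecidableEq κ]
    (φ : MultilinearMap k (fun _ : κ => W) k) (hφ : IsDRBForm K (ξ : ι → (W →ₗ[k] ℂ)) φ)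
    (x : W →ₗ[E] W) (hx : ∀ u v, b (x u) v + b u (x v) = 0) :
    Kills (x.restrictScalars k) φ := by
  have hSR : SmallRelations k E c := by
    rcases hE with ⟨h1, h2⟩ | h
    · exact Pool.Agent.W21.KCM.T_SMA k E c h2 hc hc2
    · exact Pool.Agent.W505.KCM.SM4.T_SM4 k E c h hc hc2
  exact kills_all (K := K) ξ θ b γ hcl hγ hss hend hsym hnd c hc hbE hdE
    Pool.Agent.W505.KCM.ISO.T_ISO Pool.Agent.W290.KCM.T_EMB Pool.Agent.W215.KCM.T_TRC
    Pool.Agent.W85.KCM.T_EXL Pool.Agent.W392.KCM.T_HULL hSR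
    (fun κ _ _ φ hφ x hx htr => su_kills_E (K := K) ξ θ b γ hcl hγ hss hend hsym hnd c hc hc2 hCM
      hbE hdE hsig hm hn hPL κ φ hφ x hx htr) φ hφ x hx

include hcl hγ hss hend hsym hnd hc hc2 hCM hbE hdE hsig hm hn in
/-- The de Rham-Betti forms on the sum of a trivial object and of `T`. -/
theorem drb_totalE (hPL : S_PLACE) (hEFFT : S_EFFT)
    (hE : (IsGalois k E ∧ ∀ g h : E ≃ₐ[k] E, g * h = h * g) ∨ finrank k E = 4)
    (r : ℕ) (hr : 0 < r) {κ : Type} [Fintype κ] [DecidableEq κ]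
    (φ : MultilinearMap k (fun _ : κ => (Fin r → k) × W) k)
    (hφ : IsDRBForm K (perSum r (ξ : ι → (W →ₗ[k] ℂ))) φ) :
    φ ∈ Submodule.span k
      {ψ | IsMonomialB (fun e : E => b ∘ₗ (Algebra.lsmul k k W e : Module.End k W)) ψ} := by
  refine p_totb k W E (fun e : E => b ∘ₗ (Algebra.lsmul k k W e : Module.End k W)) r κ φ hr
    fun A j ψ hψ => ?_
  refine hEFFT k E W c b hc hc2 hsym hnd hbE _ ψ fun x hx => ?_
  exact kills_E (K := K) ξ θ b γ hcl hγ hss hend hsym hnd c hc hc2 hCM hbE hdE hsig hm hn hPL hE ψ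
    (part_drb _ φ hφ A j ψ hψ) x hx

end Main

end

end Pool.Agent.W516.KCM
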